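import Mathlib

/-!
# Project QC: concentration together with polyharmonic blow-up for the planar profile in `ℝ⁴`

Definitions and statements of the parts. `E = ℝ⁴`, `Om = (-2,2) × ℝ³`, `phi` is the profile, `pp` is a
point at distance at least `8` from `Om`, `lg e z = log (e² + |z|²)`, `bd e = Δ² (- lg e)` (a bubble),
`W A β` is the approximate solution `β phi - log |x-pp|² + ∑ a, (log |x-pp|² - log (ep a ² + |x-a|²))`,
`B A β` is `Δ² (W A β)`, `gg A β` is a continuous cut-off version of `6 exp (4 W) - B`, and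
`pot e g`, with `Δ² (pot e g) = mol e g`, is the correction. Final sequences:
`u = W + pot e gg`, `V = (B + mol e gg) * exp (-4 u)`.

Every part is a `Prop`; a job proves `S_xx`, possibly from some other `S_yy` named in the job.
-/

set_option autoImplicit false

open MeasureTheory Filter Topology Real InnerProductSpace Laplacian

namespace Pool.Agent.Q82.QC

/-! ### Definitions -/

/-- The space `ℝ⁴`. -/
abbrev E : Type := EuclideanSpace ℝ (Fin 4)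

/-- The domain `(-2, 2) × ℝ³`. -/
def Om : Set E := {x | -2 < x 0 ∧ x 0 < 2}

/-- The profile `x₀ - x₀³/3 - 2/3 = -(x₀-1)²(x₀+2)/3`; also `phi x + 4/3 = (x₀+1)²(2-x₀)/3`. -/
noncomputable def phi (x : E) : ℝ := x 0 - x 0 ^ 3 / 3 - 2 / 3

/-- A point outside of the domain; its distance to every point of `Om` is at least `8`. -/
noncomputable def pp : E := EuclideanSpace.single 0 10

/-- The kernel `log (e² + |z|²)`. -/
noncomputable def lg (e : ℝ) (z : E) : ℝ := Real.log (e ^ 2 + ‖z‖ ^ 2)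

/-- The density of a bubble. -/
noncomputable def bd (e : ℝ) (z : E) : ℝ := 96 * e ^ 4 / (e ^ 2 + ‖z‖ ^ 2) ^ 4

/-- The regularised potential of `g`. -/
noncomputable def pot (e : ℝ) (g : E → ℝ) (x : E) : ℝ :=
  (16 * π ^ 2)⁻¹ * ∫ y, (lg 0 (x - pp) - lg e (x - y)) * g y

/-- The mollification of `g`. -/
noncomputable def mol (e : ℝ) (g : E → ℝ) (x : E) : ℝ :=
  (16 * π ^ 2)⁻¹ * ∫ y, bd e (x - y) * g y

/-- The points of concentration lie in the hyperplane `x₀ = -1`. -/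
def GoodA (A : Finset E) : Prop := ∀ a ∈ A, a 0 = -1

/-- The interaction constant of `a` with the other points. It is positive when `GoodA A`, `a ∈ A`. -/
noncomputable def HH (A : Finset E) (a : E) : ℝ := ∏ b ∈ A.erase a, (‖a - pp‖ / ‖a - b‖) ^ 2

/-- The scale of the bubble at `a`. -/
noncomputable def ep (A : Finset E) (β : ℝ) (a : E) : ℝ := Real.exp (-(4 / 3) * β) * HH A a / 2

/-- The approximate solution. -/
noncomputable def W (A : Finset E) (β : ℝ) (x : E) : ℝ :=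
  β * phi x - lg 0 (x - pp) + ∑ a ∈ A, (lg 0 (x - pp) - lg (ep A β a) (x - a))

/-- The bilaplacian of the approximate solution. -/
noncomputable def B (A : Finset E) (β : ℝ) (x : E) : ℝ := ∑ a ∈ A, bd (ep A β a) (x - a)

/-- A cut-off: `0` if `|x-a| ≤ 1/β` for some `a ∈ A`, and `1` if `|x-a| ≥ 2/β` for all `a ∈ A`. -/
noncomputable def psi (A : Finset E) (β : ℝ) (x : E) : ℝ :=
  ∏ a ∈ A, max 0 (min 1 (β * ‖x - a‖ - 1))

/-- A cut-off: its support lies in `|x₀| ≤ 2 - 1/β`, `|x| ≤ β + 1`, and it is `1` if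
`|x₀| ≤ 2 - 2/β` and `|x| ≤ β`. -/
noncomputable def chi (β : ℝ) (x : E) : ℝ :=
  max 0 (min 1 (β * (2 - |x 0|) - 1)) * max 0 (min 1 (β + 1 - ‖x‖))

/-- The source of the correction. -/
noncomputable def gg (A : Finset E) (β : ℝ) (x : E) : ℝ :=
  chi β x * psi A β x * (6 * Real.exp (4 * W A β x) - B A β x)

/-- `g` is continuous with compact support in `Om`, and `|y - pp| |g y|` is at most `C` and has
integral at most `δ`. -/
def Ctl (C δ : ℝ) (g : E → ℝ) : Prop :=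
  Continuous g ∧ HasCompactSupport g ∧ tsupport g ⊆ Om ∧ (∀ y, ‖y - pp‖ * |g y| ≤ C) ∧
    ∫ y, ‖y - pp‖ * |g y| ≤ δ

/-- Convergence in `C^{3,α}_loc (U)` for all `α ∈ [0,1)`. -/
def HolderConv (U : Set E) (f : ℕ → E → ℝ) (g : E → ℝ) : Prop :=
  ∀ K : Set E, IsCompact K → K ⊆ U → ∀ α : ℝ, 0 ≤ α → α < 1 → ∀ η : ℝ, 0 < η → ∀ᶠ k in atTop,
    (∀ m : ℕ, m ≤ 3 → ∀ x ∈ K, ‖iteratedFDeriv ℝ m (f k) x - iteratedFDeriv ℝ m g x‖ ≤ η) ∧
    ∀ x ∈ K, ∀ y ∈ K, ‖(iteratedFDeriv ℝ 3 (f k) x - iteratedFDeriv ℝ 3 g x) -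
      (iteratedFDeriv ℝ 3 (f k) y - iteratedFDeriv ℝ 3 g y)‖ ≤ η * ‖x - y‖ ^ α

/-- The set of points where a mass of at least `8 π²` concentrates. -/
def conc (f : ℕ → E → ℝ) : Set E :=
  {x | x ∈ Om ∧ ∃ L : ℝ, Tendsto (fun r : ℝ => liminf (fun k => ∫ y in Metric.ball x r, f k y) atTop)
    (𝓝[>] 0) (𝓝 L) ∧ 8 * π ^ 2 ≤ L}

/-! ### Calculus -/

/-- `z ↦ log (e² + |z|²)` is smooth where `e² + |z|² ≠ 0`.
Proof: `contDiff_norm_sq`, `ContDiffAt.log`. -/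
def S_SM : Prop := ∀ (e : ℝ) (z : E), 0 < e ^ 2 + ‖z‖ ^ 2 → ∀ n : ℕ, ContDiffAt ℝ n (lg e) z

/-- The bilaplacian of the kernel.
Proof: for a smooth `F : ℝ → ℝ` near `‖z‖²` one has in `ℝ⁴`
`Δ (fun z => F (‖z‖²)) = 4 ‖z‖² F'' (‖z‖²) + 8 F' (‖z‖²)` (second derivatives
along the four coordinates, `laplacian_eq_iteratedFDeriv_orthonormalBasis` with
`EuclideanSpace.basisFun`, or first restrict to lines). With `T = e² + ‖z‖²`:
`Δ (lg e) = 4 / T + 4 e² / T²` in the open set `T > 0` (F = log (e² + s)), and then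
`Δ (4 / T + 4 e² / T²) = -96 e⁴ / T⁴` (use `‖z‖² = T - e²`; `F = 4 (e²+s)⁻¹ + 4 e² (e²+s)⁻²`).
The outer Laplacian only depends on the values near `z` (`laplacian_congr_nhds`). -/
def S_LAP : Prop := ∀ (e : ℝ) (z : E), 0 < e ^ 2 + ‖z‖ ^ 2 → Δ (Δ (lg e)) z = - bd e z

/-- The profile is smooth and biharmonic. (`Δ phi = -2 x₀`, which is linear.) -/
def S_PHI : Prop := (∀ n : ℕ, ContDiff ℝ n phi) ∧ ∀ x, Δ (Δ phi) x = 0

/-- Differentiation under the integral sign for a smooth kernel and a continuous `g` with compact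
support. Proof: for a smooth map `L : E → F` into a finite dimensional (or any complete) normed
space, `x ↦ ∫ y, g y • L (x - y)` is differentiable with derivative `∫ y, g y • fderiv ℝ L (x - y)`
(`hasFDerivAt_integral_of_dominated_of_fderiv_le`: for `x` in a ball and `y` in the support of `g`
the derivative is bounded by compactness). Induction over `m` for general `F`, with
`iteratedFDeriv_succ_eq_comp_left` and `ContinuousLinearMap.integral_comp_comm` (or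
`ContinuousMultilinearMap` evaluation). -/
def S_CD : Prop := ∀ (L g : E → ℝ), (∀ n : ℕ, ContDiff ℝ n L) → Continuous g → HasCompactSupport g →
  (∀ n : ℕ, ContDiff ℝ n (fun x => ∫ y, L (x - y) * g y)) ∧
  ∀ (m : ℕ) (x : E), iteratedFDeriv ℝ m (fun x => ∫ y, L (x - y) * g y) x =
    ∫ y, g y • iteratedFDeriv ℝ m L (x - y)

/-- The potential is smooth in `Om` and its bilaplacian is the mollification.
Proof from `S_CD`, `S_LAP`, `S_SM`: `pot e g x = (16π²)⁻¹ ((∫ g) lg 0 (x - pp) - ∫ lg e (x - y) g y)`;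
`Δ f x = ∑ i, iteratedFDeriv ℝ 2 f x ![b i, b i]`, so by `S_CD` (`m = 2`) the Laplacian of
`x ↦ ∫ L (x - y) g y` is `x ↦ ∫ (Δ L) (x - y) g y`; apply this to `L = lg e` and `L = Δ (lg e)`, and
`S_LAP`, also at `e = 0`, where `bd 0 = 0`. -/
def S_POTL : Prop := ∀ (e : ℝ) (g : E → ℝ), 0 < e → Continuous g → HasCompactSupport g →
  ∀ x ∈ Om, (∀ n : ℕ, ContDiffAt ℝ n (pot e g) x) ∧ Δ (Δ (pot e g)) x = mol e g x

/-- The approximate solution is smooth in `Om` with bilaplacian `B`. Proof from `S_SM`, `S_LAP`,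
`S_PHI`: additivity of the Laplacian (`ContDiffAt.laplacian_add_nhds` etc.), translations, and
`ep A β a > 0` for `a ∈ A` (as `‖a - pp‖ > 0` because `a 0 = -1`). -/
def S_WL : Prop := ∀ A : Finset E, GoodA A → ∀ β : ℝ, ∀ x ∈ Om,
  (∀ n : ℕ, ContDiffAt ℝ n (W A β) x) ∧ Δ (Δ (W A β)) x = B A β x

/-! ### Kernel estimates -/

/-- Derivatives of the kernel. Proof: on `F = WithLp 2 (ℝ × E)` (or `EuclideanSpace ℝ (Fin 5)`) let
`Λ w = log (‖w‖²)`, smooth for `w ≠ 0`. For `m ≥ 1` and `s > 0`, `Λ (s w) = 2 log s + Λ w` gives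
`s ^ m iteratedFDeriv m Λ (s w) = iteratedFDeriv m Λ w`, and `‖iteratedFDeriv m Λ‖` is bounded on
the unit sphere by compactness, so `‖iteratedFDeriv m Λ w‖ ≤ C ‖w‖^{-m}`. Finally `lg e z = Λ (e, z)` and
`z ↦ (e, z)` is an affine isometry, so `‖iteratedFDeriv m (lg e) z‖ ≤ ‖iteratedFDeriv m Λ (e, z)‖`
(`iteratedFDeriv` of a composition with a continuous linear map of norm `≤ 1` and a translation), and
`‖(e, z)‖ ≥ ‖z‖`. -/
def S_KD : Prop := ∀ m : ℕ, 1 ≤ m → ∃ C : ℝ, 0 < C ∧ ∀ (e : ℝ) (z : E), z ≠ 0 →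
  ‖iteratedFDeriv ℝ m (lg e) z‖ ≤ C / ‖z‖ ^ m

/-- Hölder estimate of the third derivative. Proof from `S_KD` with `m = 3, 4` and `S_SM`: let
`‖z‖ ≤ ‖w‖`. If `‖z - w‖ ≤ ‖z‖/2` the segment from `z` to `w` stays outside of the ball of radius
`‖z‖/2` and the mean value inequality with the bound of the fourth derivative gives
`≤ ‖z - w‖ C 16 ‖z‖⁻⁴ ≤ 16 C ‖z - w‖^α ‖z‖^(1-α) ‖z‖⁻⁴`. If `‖z - w‖ > ‖z‖/2`, the left side is
at most `2 C ‖z‖⁻³ ≤ 2 C (2 ‖z - w‖ / ‖z‖)^α ‖z‖⁻³`. -/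
def S_KH : Prop := ∀ α : ℝ, 0 ≤ α → α < 1 → ∃ C : ℝ, 0 < C ∧ ∀ (e : ℝ) (z w : E), z ≠ 0 → w ≠ 0 →
  ‖iteratedFDeriv ℝ 3 (lg e) z - iteratedFDeriv ℝ 3 (lg e) w‖ ≤
    C * ‖z - w‖ ^ α * (‖z‖ ^ (-3 - α) + ‖w‖ ^ (-3 - α))

/-- Riesz potentials of functions which are bounded and small in `L¹` are small. Proof: for `r > 0`
split the integral at `‖x - y‖ = r`: inside it is at most `C ∫_{‖z‖<r} ‖z‖^(-s) dz`, which tends to `0` as
`r → 0` (it is finite as `s < 4`: polar coordinates, `integral_fun_norm_addHaar` or the like; it is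
`2 π² r^(4-s)/(4-s)`), outside it is at most `r^(-s) δ`. Choose `r`, then `δ`. -/
def S_RIESZ : Prop := ∀ s : ℝ, 0 ≤ s → s < 4 → ∀ C : ℝ, 0 < C → ∀ η : ℝ, 0 < η → ∃ δ : ℝ, 0 < δ ∧
  ∀ h : E → ℝ, Continuous h → HasCompactSupport h → (∀ y, 0 ≤ h y) → (∀ y, h y ≤ C) →
  ∫ y, h y ≤ δ → ∀ x : E, Integrable (fun y => ‖x - y‖ ^ (-s) * h y) ∧
    ∫ y, ‖x - y‖ ^ (-s) * h y ≤ η

/-- The normalised kernel in `Om`. Proof: the left side is `|log R|`, `R = ‖x-pp‖²/(e²+‖x-y‖²)`.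
Upper bound: `R ≤ (1 + ‖y-pp‖/‖x-y‖)²`, so `log R ≤ 2 ‖y-pp‖/‖x-y‖`. Lower bound:
`1/R ≤ (1 + (‖x-pp‖ + ‖y-pp‖)²)/‖x-pp‖² ≤ (2 + ‖y-pp‖)²` because `‖x-pp‖ ≥ 8`, so
`-log R ≤ 2 (1 + ‖y-pp‖) ≤ 4 ‖y-pp‖`. -/
def S_K0 : Prop := ∀ (e : ℝ) (x y : E), 0 ≤ e → e ≤ 1 → x ∈ Om → y ∈ Om → x ≠ y →
  |lg 0 (x - pp) - lg e (x - y)| ≤ 4 * ‖y - pp‖ * (1 + ‖x - y‖⁻¹)

/-- The correction is small. From `S_K0` and `S_RIESZ` (with `s = 0` and `s = 1`, applied to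
`h y = ‖y - pp‖ |g y|`). -/
def S_POT0 : Prop := ∀ C : ℝ, 0 < C → ∀ η : ℝ, 0 < η → ∃ δ : ℝ, 0 < δ ∧ ∀ (e : ℝ) (g : E → ℝ),
  0 < e → e ≤ 1 → Ctl C δ g → ∀ x ∈ Om, |pot e g x| ≤ η

/-- The derivatives of the correction up to order three are small. From `S_SM`, `S_CD`, `S_KD`,
`S_RIESZ` (`s = m`, applied to `h y = ‖y - pp‖ |g y|`; on the support of `g` one has `‖y - pp‖ ≥ 8`, so
`|g y| ≤ h y`): `pot e g x = (16π²)⁻¹ ((∫ g) lg 0 (x - pp) - ∫ lg e (x - y) g y)`, the derivative of order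
`m` of the first part is at most `δ C_m / 8^m`, that of the second at most
`C_m ∫ ‖x - y‖^(-m) |g y| dy`. -/
def S_POT3 : Prop := ∀ C : ℝ, 0 < C → ∀ η : ℝ, 0 < η → ∃ δ : ℝ, 0 < δ ∧ ∀ (e : ℝ) (g : E → ℝ),
  0 < e → e ≤ 1 → Ctl C δ g → ∀ m : ℕ, 1 ≤ m → m ≤ 3 → ∀ x ∈ Om,
    ‖iteratedFDeriv ℝ m (pot e g) x‖ ≤ η

/-- The same for the Hölder seminorm of the third derivative. From `S_SM`, `S_CD`, `S_KH`, `S_RIESZ`
(`s = 3 + α`), as in `S_POT3`. -/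
def S_POTH : Prop := ∀ α : ℝ, 0 ≤ α → α < 1 → ∀ C : ℝ, 0 < C → ∀ η : ℝ, 0 < η → ∃ δ : ℝ, 0 < δ ∧
  ∀ (e : ℝ) (g : E → ℝ), 0 < e → e ≤ 1 → Ctl C δ g → ∀ x ∈ Om, ∀ y ∈ Om,
    ‖iteratedFDeriv ℝ 3 (pot e g) x - iteratedFDeriv ℝ 3 (pot e g) y‖ ≤ η * ‖x - y‖ ^ α

/-- For a fixed `g` the potential is bounded in `Om`: for `x ∈ Om`, `y` in the support of `g` the number
`‖x-pp‖²/(e²+‖x-y‖²)` lies between two positive constants (`e > 0` is fixed, `‖x-pp‖ ≥ 8`, and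
`‖x-y‖`, `‖x-pp‖` differ by a bounded amount). -/
def S_POTB : Prop := ∀ (e : ℝ) (g : E → ℝ), 0 < e → Continuous g → HasCompactSupport g →
  ∃ M : ℝ, ∀ x ∈ Om, |pot e g x| ≤ M

/-! ### Bubbles -/

/-- The mass of a bubble is `16 π²`. Proof: polar coordinates (`integral_fun_norm_addHaar`,
`EuclideanSpace.volume_ball`: the unit ball of `ℝ⁴` has volume `π²/2`): the integral is
`2π² ∫_0^∞ 96 e⁴ r³/(e²+r²)⁴ dr`, and `r³/(e²+r²)⁴` has the primitive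
`-(e² + 3 r²)/(12 (e²+r²)³)`, so that the radial integral is `96 e⁴ · 1/(12 e⁴) = 8`. -/
def S_MASS : Prop := ∀ e : ℝ, 0 < e → Integrable (bd e) ∧ ∫ z, bd e z = 16 * π ^ 2

/-- The mass outside a ball tends to `0`. Proof: `bd e z ≤ 96 e⁴ / ‖z‖⁸`, and `‖z‖⁻⁸` is integrable
outside of the ball (compare with `(r²+1)⁴/... (1+‖z‖²)⁻⁴` or with `bd 1`:
`‖z‖^2 ≥ c (1 + ‖z‖²)` for `‖z‖ ≥ r`, `c = r²/(1+r²)`). -/
def S_TAIL : Prop := ∀ r : ℝ, 0 < r → ∀ η : ℝ, 0 < η → ∃ e0 : ℝ, 0 < e0 ∧ ∀ e : ℝ, 0 < e → e < e0 →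
  ∫ z in (Metric.ball (0 : E) r)ᶜ, bd e z ≤ η

/-- Uniform convergence of the mollification. From `S_MASS`, `S_TAIL`: `g` is uniformly continuous and
bounded, `mol e g x - g x = (16π²)⁻¹ ∫ bd e z (g (x - z) - g x) dz`. -/
def S_MOL : Prop := ∀ g : E → ℝ, Continuous g → HasCompactSupport g → ∀ η : ℝ, 0 < η →
  ∃ e0 : ℝ, 0 < e0 ∧ ∀ e : ℝ, 0 < e → e < e0 → ∀ x, |mol e g x - g x| ≤ η

/-- The mollification does not increase the `L¹` norm. From `S_MASS` and Fubini. -/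
def S_MOLI : Prop := ∀ (e : ℝ) (g : E → ℝ), 0 < e → Continuous g → HasCompactSupport g →
  Continuous (mol e g) ∧ Integrable (mol e g) ∧ ∫ x, |mol e g x| ≤ ∫ x, |g x|

/-- Decay of `B` and of the mollification: for fixed data both are at most `M/‖x-pp‖⁸` in `Om`. Proof:
for `y` in a compact set and `x ∈ Om`, `‖x - pp‖² ≤ M (e² + ‖x - y‖²)`. -/
def S_DEC : Prop := (∀ A : Finset E, GoodA A → ∀ β : ℝ, ∃ M : ℝ, ∀ x ∈ Om,
    |B A β x| ≤ M / ‖x - pp‖ ^ 8) ∧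
  ∀ (e : ℝ) (g : E → ℝ), 0 < e → Continuous g → HasCompactSupport g → ∃ M : ℝ, ∀ x ∈ Om,
    |mol e g x| ≤ M / ‖x - pp‖ ^ 8

/-! ### The approximate solution

Product form: for `x ∈ Om` and `GoodA A`,
`exp (4 * W A β x) = exp (4 β phi x) ‖x-pp‖^(-8) ∏ a ∈ A, (‖x-pp‖²/(ep A β a ^ 2 + ‖x-a‖²))^4`. -/

/-- The product form. Proof: `exp (4 (p - q)) = (exp p / exp q)^4`, `Real.exp_log`, `Real.exp_sum`. -/
def S_WP : Prop := ∀ A : Finset E, GoodA A → ∀ β : ℝ, ∀ x ∈ Om, Real.exp (4 * W A β x) =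
  Real.exp (4 * β * phi x) / ‖x - pp‖ ^ 8 *
    ∏ a ∈ A, (‖x - pp‖ ^ 2 / (ep A β a ^ 2 + ‖x - a‖ ^ 2)) ^ 4

/-- Growth of `exp (-4 W)` for a fixed `β ≥ 0`: from `S_WP`; `phi ≥ -4/3` in `Om`, and
`(ep² + ‖x-a‖²)/‖x-pp‖²` is bounded in `Om`. -/
def S_GRO : Prop := ∀ A : Finset E, GoodA A → ∀ β : ℝ, 0 ≤ β → ∃ M : ℝ, ∀ x ∈ Om,
  Real.exp (-(4 * W A β x)) ≤ M * ‖x - pp‖ ^ 8

/-- The approximate solution away from the points `a`. Proof from `S_WP`. Let `D` bound all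
`‖a - pp‖`, `N = card A`, and `x ∈ Om`, `‖x - a‖ ≥ 1/β` for all `a ∈ A`. Each factor
`(‖x-pp‖²/(ep²+‖x-a‖²))^4` is at most `(1 + D/‖x-a‖)^8`. (1) If `|x₀ + 1| ≥ 1/2`, then `‖x-a‖ ≥ 1/2` and the
product is at most `(1+2D)^(8N)`. (2) If `|x₀ + 1| < 1/2` the product is at most `(1+Dβ)^(8N)` and
`phi x = -(x₀-1)²(x₀+2)/3 ≤ -3/8`, so the total is at most
`exp (-3β/2) (1+Dβ)^(8N) ‖x-pp‖^(-8) ≤ C exp (-β) ‖x-pp‖^(-8)`. Second part:
`bd (ep) (x-a) ≤ 96 ep⁴/‖x-a‖^8 ≤ 96 ep⁴ (1+Dβ)^8 ‖x-pp‖^(-8)` and `ep⁴ = exp (-16β/3) HH⁴/16`. -/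
def S_WB : Prop := ∀ A : Finset E, GoodA A → ∃ C β0 : ℝ, 0 < C ∧ 1 ≤ β0 ∧ ∀ β : ℝ, β0 ≤ β → ∀ x ∈ Om,
  (∀ a ∈ A, 1 / β ≤ ‖x - a‖) →
  Real.exp (4 * W A β x) ≤ C / ‖x - pp‖ ^ 8 * (Real.exp (4 * β * phi x) + Real.exp (-β)) ∧
  B A β x ≤ C / ‖x - pp‖ ^ 8 * Real.exp (-β)

/-- Dominated convergence: `‖x-pp‖^(-7)` is integrable on `Om` (there `‖x-pp‖ ≥ 8`; compare with
`(1+‖x-pp‖)^(-7)`, `integrable_one_add_norm`), `phi ≤ 0` on `Om`, and `phi x < 0` unless `x₀ = 1`. -/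
def S_TH : Prop := (∀ β : ℝ, 0 ≤ β → IntegrableOn
    (fun x : E => (Real.exp (4 * β * phi x) + Real.exp (-β)) / ‖x - pp‖ ^ 7) Om) ∧
  Tendsto (fun β : ℝ => ∫ x in Om, (Real.exp (4 * β * phi x) + Real.exp (-β)) / ‖x - pp‖ ^ 7)
    atTop (𝓝 0)

/-- Control of the source. From `S_WB`, `S_TH`, `S_WL` (for the continuity of `W` in `Om`). For
`β ≥ β0`: `gg A β` is continuous (near a point of `Om` all factors are continuous, near any other point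
`chi β = 0`), its support lies in `{|x₀| ≤ 2 - 1/β, ‖x‖ ≤ β + 1}`; where `gg ≠ 0` the point is in `Om` and
`‖x - a‖ ≥ 1/β` for all `a ∈ A`, hence `|gg| ≤ 6 exp (4W) + B ≤ 7 C ‖x-pp‖^(-8) (exp (4βphi) + exp (-β))`
and this is at most `14 C ‖x-pp‖^(-8)`. -/
def S_CTL : Prop := ∀ A : Finset E, GoodA A → ∃ C : ℝ, 0 < C ∧ ∀ δ : ℝ, 0 < δ → ∀ᶠ β : ℝ in atTop,
  Ctl C δ (gg A β)

/-- Near the points `a` the approximate solution is a bubble. Proof from `S_WP`: for `‖x - a‖ ≤ 2/β`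
(and `β` large, so that `x ∈ Om`)
`6 exp (4W) / bd (ep a) (x - a) = exp (4β (phi x + 4/3)) ∏_{b ≠ a} [(‖x-pp‖²/(ep b²+‖x-b‖²)) / (‖a-pp‖²/‖a-b‖²)]^4`
(because `96 ep_a⁴ = 6 exp (-16β/3) HH_a⁴`), and this tends to `1` uniformly, because
`0 ≤ β (phi x + 4/3) = β (x₀+1)²(2-x₀)/3 ≤ 16/(3β) · ...` with `|x₀+1| ≤ ‖x-a‖ ≤ 2/β`. For `b ≠ a`,
`bd (ep b) (x - b) / bd (ep a) (x - a) = (HH_b/HH_a)^4 ((ep_a²+‖x-a‖²)/(ep_b²+‖x-b‖²))^4` tends to `0`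
uniformly. -/
def S_RAT : Prop := ∀ A : Finset E, GoodA A → ∀ η : ℝ, 0 < η → ∀ᶠ β : ℝ in atTop, ∀ a ∈ A, ∀ x : E,
  ‖x - a‖ ≤ 2 / β → |B A β x - 6 * Real.exp (4 * W A β x)| ≤ η * (6 * Real.exp (4 * W A β x))

/-- From `S_RAT`: for `β` large `chi β = 1` on `K`, and
`B + gg - 6 exp (4W) = (1 - psi) (B - 6 exp (4W))`, where `0 ≤ psi ≤ 1` and `psi = 1` unless `‖x-a‖ < 2/β`
for some `a ∈ A`. -/
def S_APP : Prop := ∀ A : Finset E, GoodA A → ∀ η : ℝ, 0 < η → ∀ K : Set E, IsCompact K → K ⊆ Om →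
  ∀ᶠ β : ℝ in atTop, ∀ x ∈ K,
    |B A β x + gg A β x - 6 * Real.exp (4 * W A β x)| ≤ η * (6 * Real.exp (4 * W A β x))

/-- Bounded volume. From `S_WL` (measurability), `S_WB`, `S_TH`, `S_RAT`, `S_MASS`: outside the balls
`‖x - a‖ < 1/β` by `S_WB` and `S_TH` (`1/‖x-pp‖^8 ≤ 1/‖x-pp‖^7`), in the balls
`6 exp (4W) ≤ 2 B` (by `S_RAT` with `η = 1/2`) and `∫ B ≤ 16 π² card A`. -/
def S_VOL : Prop := ∀ A : Finset E, GoodA A → ∃ C : ℝ, ∀ᶠ β : ℝ in atTop,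
  IntegrableOn (fun x => Real.exp (4 * W A β x)) Om ∧ ∫ x in Om, Real.exp (4 * W A β x) ≤ C

/-- Choice of the regularisation. From `S_MOL` and `S_WL`, for `gg A β` continuous with compact support:
`exp (4W)` has a positive minimum on the compact set `K ⊆ Om`. -/
def S_EPS : Prop := ∀ A : Finset E, GoodA A → ∀ β : ℝ, Continuous (gg A β) →
  HasCompactSupport (gg A β) → ∀ η : ℝ, 0 < η → ∀ K : Set E, IsCompact K → K ⊆ Om →
  ∃ e : ℝ, 0 < e ∧ e ≤ 1 ∧ ∀ x ∈ K, |mol e (gg A β) x - gg A β x| ≤ η * (6 * Real.exp (4 * W A β x))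

/-- The derivatives of the approximate solution. From `S_SM`, `S_KD`, `S_KH`, `S_PHI`: on a compact set
`K ⊆ Om` disjoint from `A`,
`W - β phi = (card A - 1) lg 0 (x-pp) - ∑ lg (ep A β a) (x-a)`, `‖x-a‖ ≥ d > 0`, `‖x-pp‖ ≥ 8`, `ep ≤ HH/2`
for `β ≥ 0`. -/
def S_CVW : Prop := ∀ A : Finset E, GoodA A → ∀ K : Set E, IsCompact K → K ⊆ Om → (∀ a ∈ A, a ∉ K) →
  ∀ α : ℝ, 0 ≤ α → α < 1 → ∃ M : ℝ, 0 < M ∧ ∀ β : ℝ, 0 ≤ β →
    (∀ m : ℕ, m ≤ 3 → ∀ x ∈ K, ‖iteratedFDeriv ℝ m (W A β) x - β • iteratedFDeriv ℝ m phi x‖ ≤ M) ∧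
    ∀ x ∈ K, ∀ y ∈ K, ‖(iteratedFDeriv ℝ 3 (W A β) x - β • iteratedFDeriv ℝ 3 phi x) -
      (iteratedFDeriv ℝ 3 (W A β) y - β • iteratedFDeriv ℝ 3 phi y)‖ ≤ M * ‖x - y‖ ^ α

/-! ### The sequences -/

/-- Convergence of `u / β`. From `S_WL`, `S_POTL`, `S_CVW`, `S_POT0`, `S_POT3`, `S_POTH`, `S_PHI`. -/
def S_CONV : Prop := ∀ A : Finset E, GoodA A → ∀ (b e : ℕ → ℝ) (h : ℕ → E → ℝ), (∀ k, 0 < b k) →
  Tendsto b atTop atTop → (∀ k, 0 < e k ∧ e k ≤ 1) → (∃ C : ℝ, 0 < C ∧ ∀ δ : ℝ, 0 < δ →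
    ∀ᶠ k in atTop, Ctl C δ (h k)) →
  HolderConv (Om \ (A : Set E)) (fun k x => (W A (b k) x + pot (e k) (h k) x) / b k) phi

/-- The concentration set. From `S_MASS`, `S_TAIL`, `S_MOLI`: for `x ∈ Om` and small `r` the ball is
contained in `Om`. If `x ∉ A` and `r` is less than the distance from `x` to `A`, the integrals over the
ball tend to `0` (tails of the bubbles, `ep A (b k) a → 0`, and `∫ |mol| ≤ ∫ |h k| → 0`). If `x = a ∈ A`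
and `r` is small they tend to `16 π²`. A sequence which converges has its limit as `liminf`. -/
def S_CONC : Prop := ∀ A : Finset E, GoodA A → ∀ (b e : ℕ → ℝ) (h f : ℕ → E → ℝ),
  Tendsto b atTop atTop → (∀ k, 0 < e k) → (∀ k, Continuous (h k) ∧ HasCompactSupport (h k)) →
  Tendsto (fun k => ∫ x, |h k x|) atTop (𝓝 0) →
  (∀ k, ∀ x ∈ Om, f k x = B A (b k) x + mol (e k) (h k) x) → conc f = (A : Set E)

/-- The limit of the coefficients. From `S_WL`, `S_MOLI`, `S_APP`, `S_POT0`: on a compact set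
`K ⊆ Om` (every compact set `K ⊆ Om` is contained in `{|x₀| ≤ 2 - 1/(k+1), ‖x‖ ≤ k+1}` for large `k`)
`V = 6 (1 + o(1)) exp (-4 pot)`, and `pot → 0` uniformly in `Om`. -/
def S_VCONV : Prop := ∀ A : Finset E, GoodA A → ∀ (b e : ℕ → ℝ), Tendsto b atTop atTop →
  (∀ k, 0 < e k ∧ e k ≤ 1) → (∃ C : ℝ, 0 < C ∧ ∀ δ : ℝ, 0 < δ →
    ∀ᶠ k in atTop, Ctl C δ (gg A (b k))) →
  (∀ k : ℕ, ∀ x : E, |x 0| ≤ 2 - 1 / ((k : ℝ) + 1) → ‖x‖ ≤ (k : ℝ) + 1 →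
    |mol (e k) (gg A (b k)) x - gg A (b k) x| ≤
      1 / ((k : ℝ) + 1) * (6 * Real.exp (4 * W A (b k) x))) →
  TendstoLocallyUniformlyOn (fun k x => (B A (b k) x + mol (e k) (gg A (b k)) x) *
    Real.exp (-(4 * (W A (b k) x + pot (e k) (gg A (b k)) x)))) (fun _ => 6) atTop Om

/-- Everything together: for every finite set of points in the hyperplane there are the sequences. -/
def S_MAIN : Prop := ∀ A : Finset E, GoodA A → ∃ (V u : ℕ → E → ℝ) (b : ℕ → ℝ),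
  (∀ k, ContinuousOn (V k) Om ∧ ∃ M : ℝ, ∀ x ∈ Om, |V k x| ≤ M) ∧
  TendstoLocallyUniformlyOn V (fun _ => 6) atTop Om ∧
  (∀ k, ∀ n : ℕ, ContDiffOn ℝ n (u k) Om) ∧
  (∀ k, ∀ x ∈ Om, Δ (Δ (u k)) x = V k x * Real.exp (4 * u k x)) ∧
  (∃ C : ℝ, ∀ k, IntegrableOn (fun x => Real.exp (4 * u k x)) Om ∧
    ∫ x in Om, Real.exp (4 * u k x) ≤ C) ∧
  conc (fun k x => V k x * Real.exp (4 * u k x)) = (A : Set E) ∧
  Tendsto b atTop atTop ∧ HolderConv (Om \ (A : Set E)) (fun k x => u k x / b k) phi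

end Pool.Agent.Q82.QC
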