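import Pool.Agent.Q82.QC.CVW

/-!
Project QC: convergence of the scaled solutions.
-/

set_option autoImplicit false

open MeasureTheory Filter Topology Real InnerProductSpace Laplacian

namespace Pool.Agent.Q82.QC

theorem conv (h1 : S_WL) (h2 : S_POTL) (h3 : S_CVW) (h4 : S_POT0) (h5 : S_POT3) (h6 : S_POTH) :
    S_CONV := by
  intro A hA b e h hb0 hb he hC' K hK hKU α hα0 hα1 η hη
  obtain ⟨C, hC, hctl⟩ := hC'
  obtain ⟨M, hM, HM⟩ := h3 A hA K hK (fun x hx => (hKU hx).1) (fun a ha hak => (hKU hak).2 ha)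
    α hα0 hα1
  obtain ⟨δ0, p0, P0⟩ := h4 C hC 1 one_pos
  obtain ⟨δ3, p3, P3⟩ := h5 C hC 1 one_pos
  obtain ⟨δh, ph, PH⟩ := h6 α hα0 hα1 C hC 1 one_pos
  filter_upwards [hctl δ0 p0, hctl δ3 p3, hctl δh ph, hb.eventually_ge_atTop ((M + 1) / η)]
    with k c0 c3 ch hbk
  have hbp := hb0 k
  have key : (b k)⁻¹ * (M + 1) ≤ η := by
    rw [div_le_iff₀ hη] at hbk
    rw [inv_mul_le_iff₀ hbp]
    exact hbk
  have hW : ∀ x ∈ K, ∀ m : ℕ, ContDiffAt ℝ m (W A (b k)) x := fun x hx m =>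
    (h1 A hA (b k) x (hKU hx).1).1 m
  have hP : ∀ x ∈ K, ∀ m : ℕ, ContDiffAt ℝ m (pot (e k) (h k)) x := fun x hx m =>
    (h2 (e k) (h k) (he k).1 c0.1 c0.2.1 x (hKU hx).1).1 m
  have e1 : (fun x => (W A (b k) x + pot (e k) (h k) x) / b k) =
      (b k)⁻¹ • (W A (b k) + pot (e k) (h k)) := by
    funext x
    simp only [Pi.smul_apply, Pi.add_apply, smul_eq_mul]
    rw [div_eq_inv_mul]
  have form : ∀ x ∈ K, ∀ m : ℕ, iteratedFDeriv ℝ m (fun x => (W A (b k) x + pot (e k) (h k) x) / b k) x -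
      iteratedFDeriv ℝ m phi x = (b k)⁻¹ • ((iteratedFDeriv ℝ m (W A (b k)) x -
        b k • iteratedFDeriv ℝ m phi x) + iteratedFDeriv ℝ m (pot (e k) (h k)) x) := by
    intro x hx m
    have hs : ContDiffAt ℝ m (W A (b k) + pot (e k) (h k)) x := (hW x hx m).add (hP x hx m)
    rw [e1, iteratedFDeriv_const_smul_apply hs, iteratedFDeriv_add_apply (hW x hx m) (hP x hx m)]
    rw [smul_add, smul_add, smul_sub, smul_smul, inv_mul_cancel₀ hbp.ne', one_smul]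
    abel
  refine ⟨fun m hm x hx => ?_, fun x hx y hy => ?_⟩
  · rw [form x hx m, norm_smul, Real.norm_eq_abs, abs_of_pos (inv_pos.2 hbp)]
    refine le_trans (mul_le_mul_of_nonneg_left ((norm_add_le _ _).trans (add_le_add
      ((HM (b k) hbp.le).1 m hm x hx) ?_)) (inv_pos.2 hbp).le) key
    rcases Nat.eq_zero_or_pos m with rfl | hm0
    · rw [norm_iteratedFDeriv_zero, Real.norm_eq_abs]
      exact P0 (e k) (h k) (he k).1 (he k).2 c0 x (hKU hx).1
    · exact P3 (e k) (h k) (he k).1 (he k).2 c3 m hm0 hm x (hKU hx).1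
  · rw [form x hx 3, form y hy 3, ← smul_sub, norm_smul, Real.norm_eq_abs,
      abs_of_pos (inv_pos.2 hbp)]
    have a1 := (HM (b k) hbp.le).2 x hx y hy
    have a2 := PH (e k) (h k) (he k).1 (he k).2 ch x (hKU hx).1 y (hKU hy).1
    have hD : 0 ≤ ‖x - y‖ ^ α := by positivity
    have a3 : ‖(iteratedFDeriv ℝ 3 (W A (b k)) x - b k • iteratedFDeriv ℝ 3 phi x +
        iteratedFDeriv ℝ 3 (pot (e k) (h k)) x) - (iteratedFDeriv ℝ 3 (W A (b k)) y -
        b k • iteratedFDeriv ℝ 3 phi y + iteratedFDeriv ℝ 3 (pot (e k) (h k)) y)‖ ≤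
        (M + 1) * ‖x - y‖ ^ α := by
      rw [add_sub_add_comm, add_mul]
      exact (norm_add_le _ _).trans (add_le_add a1 a2)
    calc (b k)⁻¹ * _ ≤ (b k)⁻¹ * ((M + 1) * ‖x - y‖ ^ α) :=
          mul_le_mul_of_nonneg_left a3 (inv_pos.2 hbp).le
      _ = (b k)⁻¹ * (M + 1) * ‖x - y‖ ^ α := by ring
      _ ≤ η * ‖x - y‖ ^ α := mul_le_mul_of_nonneg_right key hD

end Pool.Agent.Q82.QC
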