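import Pool.Agent.Q82.QC.K0

/-!
# Project QC, job CTL (helper299): control of the source
-/

set_option autoImplicit false

open MeasureTheory Filter Topology Real InnerProductSpace Laplacian

namespace Pool.Agent.Q82.QC

namespace CT

theorem cont_coord : Continuous fun x : E => x 0 := by fun_prop

theorem isOpen_Om : IsOpen Om :=
  (isOpen_lt continuous_const cont_coord).inter (isOpen_lt cont_coord continuous_const)

theorem phi_cont : Continuous phi := by
  unfold phi
  fun_prop

theorem bd_nonneg (e : ℝ) (z : E) : 0 ≤ bd e z := by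
  unfold bd
  positivity

theorem B_nonneg (A : Finset E) (β : ℝ) (x : E) : 0 ≤ B A β x :=
  Finset.sum_nonneg fun _ _ => bd_nonneg _ _

theorem bd_cont (e : ℝ) : Continuous (bd e) := by
  by_cases h : e = 0
  · subst h
    have : bd 0 = fun _ : E => (0 : ℝ) := by
      funext z
      simp [bd]
    rw [this]
    exact continuous_const
  · unfold bd
    refine Continuous.div (by fun_prop) (by fun_prop) fun z => ?_
    have : 0 < e ^ 2 := by positivity
    positivity

theorem B_cont (A : Finset E) (β : ℝ) : Continuous (B A β) := by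
  unfold B
  refine continuous_finsetSum _ fun a _ => ?_
  exact (bd_cont _).comp (by fun_prop)

theorem chi_cont (β : ℝ) : Continuous (chi β) := by
  have := cont_coord
  unfold chi
  fun_prop

theorem psi_cont (A : Finset E) (β : ℝ) : Continuous (psi A β) := by
  unfold psi
  refine continuous_finsetProd _ fun a _ => ?_
  fun_prop

theorem chi_nonneg (β : ℝ) (x : E) : 0 ≤ chi β x :=
  mul_nonneg (le_max_left _ _) (le_max_left _ _)

theorem cut_le_one (t : ℝ) : max 0 (min 1 t) ≤ 1 := max_le zero_le_one (min_le_left _ _)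

theorem chi_le_one (β : ℝ) (x : E) : chi β x ≤ 1 :=
  mul_le_one₀ (cut_le_one _) (le_max_left _ _) (cut_le_one _)

theorem psi_nonneg (A : Finset E) (β : ℝ) (x : E) : 0 ≤ psi A β x :=
  Finset.prod_nonneg fun _ _ => le_max_left _ _

theorem psi_le_one (A : Finset E) (β : ℝ) (x : E) : psi A β x ≤ 1 :=
  Finset.prod_le_one (fun _ _ => le_max_left _ _) fun _ _ => cut_le_one _

theorem cut_pos {t : ℝ} (h : max 0 (min 1 t) ≠ 0) : 0 < t := by
  by_contra hc
  push Not at hc
  exact h (max_eq_left ((min_le_right _ _).trans hc))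

theorem chi_ne {β : ℝ} (hβ : 0 < β) {x : E} (h : chi β x ≠ 0) :
    |x 0| < 2 - 1 / β ∧ ‖x‖ < β + 1 := by
  have h1 := cut_pos (left_ne_zero_of_mul h)
  have h2 := cut_pos (right_ne_zero_of_mul h)
  refine ⟨?_, by linarith⟩
  have h3 : 1 / β < 2 - |x 0| := by
    rw [div_lt_iff₀ hβ]
    linarith
  linarith

theorem psi_ne {A : Finset E} {β : ℝ} (hβ : 0 < β) {x : E} (h : psi A β x ≠ 0) :
    ∀ a ∈ A, 1 / β ≤ ‖x - a‖ := by
  intro a ha
  have h1 := cut_pos (Finset.prod_ne_zero_iff.1 h a ha)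
  rw [div_le_iff₀ hβ]
  linarith

/-- the compact support -/
def S0 (β : ℝ) : Set E := {x | |x 0| ≤ 2 - 1 / β} ∩ Metric.closedBall 0 (β + 1)

theorem S0_compact (β : ℝ) : IsCompact (S0 β) :=
  (isCompact_closedBall (0 : E) (β + 1)).inter_left
    (isClosed_le cont_coord.abs continuous_const)

theorem S0_sub {β : ℝ} (hβ : 0 < β) : S0 β ⊆ Om := by
  intro x hx
  have h1 : |x 0| ≤ 2 - 1 / β := hx.1
  have h2 : 0 < 1 / β := by positivity
  have h3 : |x 0| < 2 := by linarith
  exact abs_lt.1 h3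

theorem gg_zero {A : Finset E} {β : ℝ} (hβ : 0 < β) {x : E} (hx : x ∉ S0 β) : gg A β x = 0 := by
  have h : chi β x = 0 := by
    by_contra hc
    obtain ⟨h1, h2⟩ := chi_ne hβ hc
    exact hx ⟨h1.le, by rw [mem_closedBall_zero_iff]; exact h2.le⟩
  unfold gg
  rw [h, zero_mul, zero_mul]

theorem gg_supp {A : Finset E} {β : ℝ} (hβ : 0 < β) :
    HasCompactSupport (gg A β) ∧ tsupport (gg A β) ⊆ Om := by
  refine ⟨HasCompactSupport.intro (S0_compact β) fun x hx => gg_zero hβ hx, ?_⟩
  refine (closure_minimal ?_ (S0_compact β).isClosed).trans (S0_sub hβ)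
  intro x hx
  by_contra hc
  exact hx (gg_zero hβ hc)

theorem W_cont (h3 : S_WL) {A : Finset E} (hA : GoodA A) (β : ℝ) {x : E} (hx : x ∈ Om) :
    ContinuousAt (W A β) x := ((h3 A hA β x hx).1 0).continuousAt

theorem gg_cont (h3 : S_WL) {A : Finset E} (hA : GoodA A) {β : ℝ} (hβ : 0 < β) :
    Continuous (gg A β) := by
  rw [continuous_iff_continuousAt]
  intro x
  by_cases hx : x ∈ Om
  · have hW := W_cont h3 hA β hx
    have h1 : ContinuousAt (fun x => 6 * Real.exp (4 * W A β x) - B A β x) x :=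
      (continuousAt_const.mul (Real.continuous_exp.continuousAt.comp (continuousAt_const.mul hW))).sub
        (B_cont A β).continuousAt
    exact ((chi_cont β).continuousAt.mul (psi_cont A β).continuousAt).mul h1
  · have hx0 : x ∉ S0 β := fun h => hx (S0_sub hβ h)
    have h1 : ∀ᶠ y in 𝓝 x, gg A β y = 0 := by
      have := (S0_compact β).isClosed.isOpen_compl.mem_nhds hx0
      filter_upwards [this] with y hy
      exact gg_zero hβ hy
    have h2 : gg A β =ᶠ[𝓝 x] fun _ => (0 : ℝ) := h1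
    exact continuousAt_const.congr h2.symm

theorem phi_nonpos {x : E} (hx : x ∈ Om) : phi x ≤ 0 := by
  have h1 := hx.1
  have : phi x = -((x 0 - 1) ^ 2 * (x 0 + 2) / 3) := by
    unfold phi
    ring
  rw [this]
  have : 0 ≤ (x 0 - 1) ^ 2 * (x 0 + 2) / 3 := by
    have : 0 ≤ x 0 + 2 := by linarith
    positivity
  linarith

/-- the pointwise bound -/
theorem gg_bound {A : Finset E} {C β : ℝ} (hC : 0 < C) (hβ : 0 < β)
    (h : ∀ x ∈ Om, (∀ a ∈ A, 1 / β ≤ ‖x - a‖) →
      Real.exp (4 * W A β x) ≤ C / ‖x - pp‖ ^ 8 * (Real.exp (4 * β * phi x) + Real.exp (-β)) ∧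
      B A β x ≤ C / ‖x - pp‖ ^ 8 * Real.exp (-β)) {x : E} (hx : x ∈ Om) :
    ‖x - pp‖ * |gg A β x| ≤
      7 * C * ((Real.exp (4 * β * phi x) + Real.exp (-β)) / ‖x - pp‖ ^ 7) := by
  have h8 := k0_pp x hx
  have hp : 0 < ‖x - pp‖ := by linarith
  by_cases hg : gg A β x = 0
  · rw [hg, abs_zero, mul_zero]
    positivity
  · have hcp : chi β x * psi A β x ≠ 0 := left_ne_zero_of_mul hg
    have hpsi := psi_ne hβ (right_ne_zero_of_mul hcp)
    obtain ⟨b1, b2⟩ := h x hx hpsi
    have hB := B_nonneg A β x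
    have hE : 0 < Real.exp (4 * W A β x) := Real.exp_pos _
    have h1 : |gg A β x| ≤ 6 * Real.exp (4 * W A β x) + B A β x := by
      unfold gg
      rw [abs_mul, abs_of_nonneg (mul_nonneg (chi_nonneg β x) (psi_nonneg A β x))]
      have h2 : chi β x * psi A β x ≤ 1 :=
        mul_le_one₀ (chi_le_one β x) (psi_nonneg A β x) (psi_le_one A β x)
      have h3 : |6 * Real.exp (4 * W A β x) - B A β x| ≤ 6 * Real.exp (4 * W A β x) + B A β x := by
        rw [abs_le]
        constructor <;> linarith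
      calc _ ≤ 1 * |6 * Real.exp (4 * W A β x) - B A β x| :=
            mul_le_mul_of_nonneg_right h2 (abs_nonneg _)
        _ ≤ _ := by rw [one_mul]; exact h3
    have h4 : |gg A β x| ≤ 7 * (C / ‖x - pp‖ ^ 8 * (Real.exp (4 * β * phi x) + Real.exp (-β))) := by
      have h5 : C / ‖x - pp‖ ^ 8 * Real.exp (-β) ≤
          C / ‖x - pp‖ ^ 8 * (Real.exp (4 * β * phi x) + Real.exp (-β)) := by
        refine mul_le_mul_of_nonneg_left ?_ (by positivity)
        have := Real.exp_pos (4 * β * phi x)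
        linarith
      linarith
    calc ‖x - pp‖ * |gg A β x|
        ≤ ‖x - pp‖ * (7 * (C / ‖x - pp‖ ^ 8 * (Real.exp (4 * β * phi x) + Real.exp (-β)))) :=
          mul_le_mul_of_nonneg_left h4 hp.le
      _ = _ := by
          field_simp

end CT

open CT in
theorem ctl (h1 : S_WB) (h2 : S_TH) (h3 : S_WL) : S_CTL := by
  intro A hA
  obtain ⟨C, β0, hC, hβ0, hb⟩ := h1 A hA
  refine ⟨14 * C, by positivity, fun δ hδ => ?_⟩
  have hlim : Tendsto (fun β : ℝ => 7 * C * ∫ x in Om, (Real.exp (4 * β * phi x) + Real.exp (-β)) /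
      ‖x - pp‖ ^ 7) atTop (𝓝 (7 * C * 0)) := h2.2.const_mul _
  rw [mul_zero] at hlim
  filter_upwards [eventually_ge_atTop β0, hlim.eventually (gt_mem_nhds hδ)] with β hβ hsm
  have hβp : 0 < β := by linarith
  have hbd : ∀ x ∈ Om, ‖x - pp‖ * |gg A β x| ≤
      7 * C * ((Real.exp (4 * β * phi x) + Real.exp (-β)) / ‖x - pp‖ ^ 7) := fun x hx =>
    gg_bound hC hβp (hb β hβ) hx
  have hout : ∀ x, x ∉ Om → ‖x - pp‖ * |gg A β x| = 0 := by
    intro x hx
    rw [gg_zero hβp (fun h => hx (S0_sub hβp h)), abs_zero, mul_zero]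
  refine ⟨gg_cont h3 hA hβp, (gg_supp hβp).1, (gg_supp hβp).2, fun y => ?_, ?_⟩
  · by_cases hy : y ∈ Om
    · refine (hbd y hy).trans ?_
      have h8 := k0_pp y hy
      have e1 : Real.exp (4 * β * phi y) ≤ 1 := by
        rw [Real.exp_le_one_iff]
        have := phi_nonpos hy
        exact mul_nonpos_of_nonneg_of_nonpos (by positivity) this
      have e2 : Real.exp (-β) ≤ 1 := by
        rw [Real.exp_le_one_iff]
        linarith
      have e3 : (Real.exp (4 * β * phi y) + Real.exp (-β)) / ‖y - pp‖ ^ 7 ≤ 2 := by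
        rw [div_le_iff₀ (by positivity)]
        have : (1 : ℝ) ≤ ‖y - pp‖ ^ 7 := one_le_pow₀ (by linarith)
        linarith
      calc _ ≤ 7 * C * 2 := mul_le_mul_of_nonneg_left e3 (by positivity)
        _ = 14 * C := by ring
    · rw [hout y hy]
      positivity
  · have e1 : ∫ y, ‖y - pp‖ * |gg A β y| = ∫ y in Om, ‖y - pp‖ * |gg A β y| :=
      (setIntegral_eq_integral_of_forall_compl_eq_zero fun x hx => hout x hx).symm
    rw [e1]
    refine le_trans ?_ hsm.le
    rw [← integral_const_mul]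
    refine integral_mono_of_nonneg (Eventually.of_forall fun x => by positivity)
      ((h2.1 β hβp.le).const_mul _) ?_
    filter_upwards [ae_restrict_mem isOpen_Om.measurableSet] with x hx
    exact hbd x hx

end Pool.Agent.Q82.QC
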