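import Pool.Agent.Q82.QC.POT3

/-!
Project QC: the derivatives of the approximate solution.
-/

set_option autoImplicit false

open MeasureTheory Filter Topology Real InnerProductSpace Laplacian

namespace Pool.Agent.Q82.QC

/-- The derivative of order `m` of `W - β phi`. -/
noncomputable def RR (A : Finset E) (β : ℝ) (m : ℕ) (x : E) : E [×m]→L[ℝ] ℝ :=
  -(iteratedFDeriv ℝ m (lg 0) (x - pp)) + ∑ a ∈ A, (iteratedFDeriv ℝ m (lg 0) (x - pp) -
    iteratedFDeriv ℝ m (lg (ep A β a)) (x - a))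

theorem lg_at (h1 : S_SM) (e : ℝ) {x a : E} (h : x ≠ a) (m : ℕ) :
    ContDiffAt ℝ m (fun z : E => lg e (z - a)) x := by
  have h2 : 0 < ‖x - a‖ := norm_pos_iff.2 (sub_ne_zero.2 h)
  have h3 : ContDiffAt ℝ m (lg e) (x - a) := h1 e _ (by positivity) m
  have h4 : ContDiffAt ℝ m (fun z : E => z - a) x := contDiffAt_id.sub contDiffAt_const
  exact ContDiffAt.comp (g := lg e) (f := fun z : E => z - a) x h3 h4

theorem W_deriv (h1 : S_SM) (h4 : S_PHI) (A : Finset E) (β : ℝ) {x : E} (hx : x ∈ Om)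
    (hxA : ∀ a ∈ A, x ≠ a) (m : ℕ) :
    iteratedFDeriv ℝ m (W A β) x - β • iteratedFDeriv ℝ m phi x = RR A β m x := by
  have hx8 := k0_pp x hx
  have hxp : x ≠ pp := by
    intro h
    rw [h, sub_self, norm_zero] at hx8
    linarith
  have c0 : ContDiffAt ℝ m (fun z : E => lg 0 (z - pp)) x := lg_at h1 0 hxp m
  have ca : ∀ a ∈ A, ContDiffAt ℝ m (fun z : E => lg (ep A β a) (z - a)) x := fun a ha =>
    lg_at h1 _ (hxA a ha) m
  have cd : ∀ a ∈ A, ContDiffAt ℝ m (fun z : E => lg 0 (z - pp) - lg (ep A β a) (z - a)) x :=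
    fun a ha => c0.sub (ca a ha)
  have cp : ContDiffAt ℝ m phi x := (h4.1 m).contDiffAt
  have e1 : W A β = (β • phi + (-fun z : E => lg 0 (z - pp))) +
      fun z => ∑ a ∈ A, (lg 0 (z - pp) - lg (ep A β a) (z - a)) := by
    funext z
    simp only [W, Pi.add_apply, Pi.smul_apply, Pi.neg_apply, smul_eq_mul]
    ring
  have cp' : ContDiffAt ℝ m (β • phi) x := ContDiffAt.const_smul (f := phi) β cp
  have c0' : ContDiffAt ℝ m (-fun z : E => lg 0 (z - pp)) x := c0.neg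
  have cs : ContDiffAt ℝ m (fun z : E => ∑ a ∈ A, (lg 0 (z - pp) - lg (ep A β a) (z - a))) x :=
    ContDiffAt.sum cd
  have c1 : ContDiffAt ℝ m (β • phi + (-fun z : E => lg 0 (z - pp))) x := cp'.add c0'
  rw [e1, iteratedFDeriv_add_apply c1 cs, iteratedFDeriv_add_apply cp' c0',
    iteratedFDeriv_const_smul_apply cp, iteratedFDeriv_neg_apply, iteratedFDeriv_comp_sub,
    iteratedFDeriv_fun_sum_apply cd, RR]
  have e2 : ∀ a ∈ A, iteratedFDeriv ℝ m (fun z : E => lg 0 (z - pp) - lg (ep A β a) (z - a)) x =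
      iteratedFDeriv ℝ m (lg 0) (x - pp) - iteratedFDeriv ℝ m (lg (ep A β a)) (x - a) := by
    intro a ha
    have := iteratedFDeriv_sub_apply (f := fun z : E => lg 0 (z - pp))
      (g := fun z : E => lg (ep A β a) (z - a)) c0 (ca a ha)
    rw [iteratedFDeriv_comp_sub, iteratedFDeriv_comp_sub] at this
    exact this
  rw [Finset.sum_congr rfl e2]
  abel

theorem RR_bound (h2 : S_KD) (A : Finset E) (d : E → ℝ) (hd : ∀ a ∈ A, 0 < d a) (m : ℕ)
    (hm : 1 ≤ m) : ∃ M : ℝ, 0 ≤ M ∧ ∀ β : ℝ, ∀ x ∈ Om, (∀ a ∈ A, d a ≤ ‖x - a‖) →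
      ‖RR A β m x‖ ≤ M := by
  obtain ⟨C, hC, hKD⟩ := h2 m hm
  refine ⟨C + ∑ a ∈ A, (C + C / d a ^ m), ?_, fun β x hx hxd => ?_⟩
  · have : 0 ≤ ∑ a ∈ A, (C + C / d a ^ m) := Finset.sum_nonneg fun a ha => by
      have := hd a ha
      positivity
    linarith
  have hx8 := k0_pp x hx
  have b0 : ‖iteratedFDeriv ℝ m (lg 0) (x - pp)‖ ≤ C := by
    refine (hKD 0 (x - pp) (norm_pos_iff.1 (by linarith))).trans ?_
    apply div_le_self hC.le
    exact one_le_pow₀ (by linarith)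
  unfold RR
  refine (norm_add_le _ _).trans (add_le_add ?_ ((norm_sum_le _ _).trans (Finset.sum_le_sum
    fun a ha => ?_)))
  · rw [norm_neg]; exact b0
  · refine (norm_sub_le _ _).trans (add_le_add b0 ?_)
    have hp := hd a ha
    have hxa : 0 < ‖x - a‖ := lt_of_lt_of_le hp (hxd a ha)
    refine (hKD _ (x - a) (norm_pos_iff.1 hxa)).trans ?_
    have := hxd a ha
    gcongr

theorem RR_holder (h3 : S_KH) (A : Finset E) (d : E → ℝ) (hd : ∀ a ∈ A, 0 < d a) (α : ℝ)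
    (hα0 : 0 ≤ α) (hα1 : α < 1) : ∃ M : ℝ, 0 ≤ M ∧ ∀ β : ℝ, ∀ x ∈ Om, ∀ y ∈ Om,
      (∀ a ∈ A, d a ≤ ‖x - a‖) → (∀ a ∈ A, d a ≤ ‖y - a‖) →
      ‖RR A β 3 x - RR A β 3 y‖ ≤ M * ‖x - y‖ ^ α := by
  obtain ⟨C, hC, hKH⟩ := h3 α hα0 hα1
  refine ⟨2 * C + ∑ a ∈ A, (2 * C + 2 * C * d a ^ (-3 - α)), ?_, fun β x hx y hy hxd hyd => ?_⟩
  · have : 0 ≤ ∑ a ∈ A, (2 * C + 2 * C * d a ^ (-3 - α)) := Finset.sum_nonneg fun a ha => by
      have := hd a ha
      positivity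
    linarith
  have hx8 := k0_pp x hx
  have hy8 := k0_pp y hy
  have hD : 0 ≤ ‖x - y‖ ^ α := by positivity
  have b0 : ‖iteratedFDeriv ℝ 3 (lg 0) (x - pp) - iteratedFDeriv ℝ 3 (lg 0) (y - pp)‖ ≤
      2 * C * ‖x - y‖ ^ α := by
    refine (hKH 0 (x - pp) (y - pp) (norm_pos_iff.1 (by linarith))
      (norm_pos_iff.1 (by linarith))).trans ?_
    have : x - pp - (y - pp) = x - y := by abel
    rw [this]
    have c1 : ‖x - pp‖ ^ (-3 - α) ≤ 1 := Real.rpow_le_one_of_one_le_of_nonpos (by linarith) (by linarith)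
    have c2 : ‖y - pp‖ ^ (-3 - α) ≤ 1 := Real.rpow_le_one_of_one_le_of_nonpos (by linarith) (by linarith)
    calc C * ‖x - y‖ ^ α * (‖x - pp‖ ^ (-3 - α) + ‖y - pp‖ ^ (-3 - α)) ≤
        C * ‖x - y‖ ^ α * (1 + 1) := by gcongr
      _ = _ := by ring
  have ba : ∀ a ∈ A, ‖iteratedFDeriv ℝ 3 (lg (ep A β a)) (x - a) -
      iteratedFDeriv ℝ 3 (lg (ep A β a)) (y - a)‖ ≤ 2 * C * d a ^ (-3 - α) * ‖x - y‖ ^ α := by
    intro a ha
    have hp := hd a ha
    have hxa : 0 < ‖x - a‖ := lt_of_lt_of_le hp (hxd a ha)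
    have hya : 0 < ‖y - a‖ := lt_of_lt_of_le hp (hyd a ha)
    refine (hKH _ (x - a) (y - a) (norm_pos_iff.1 hxa) (norm_pos_iff.1 hya)).trans ?_
    have : x - a - (y - a) = x - y := by abel
    rw [this]
    have c1 : ‖x - a‖ ^ (-3 - α) ≤ d a ^ (-3 - α) :=
      Real.rpow_le_rpow_of_nonpos hp (hxd a ha) (by linarith)
    have c2 : ‖y - a‖ ^ (-3 - α) ≤ d a ^ (-3 - α) :=
      Real.rpow_le_rpow_of_nonpos hp (hyd a ha) (by linarith)
    calc C * ‖x - y‖ ^ α * (‖x - a‖ ^ (-3 - α) + ‖y - a‖ ^ (-3 - α)) ≤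
        C * ‖x - y‖ ^ α * (d a ^ (-3 - α) + d a ^ (-3 - α)) := by gcongr
      _ = _ := by ring
  have e1 : RR A β 3 x - RR A β 3 y = -(iteratedFDeriv ℝ 3 (lg 0) (x - pp) -
      iteratedFDeriv ℝ 3 (lg 0) (y - pp)) + ∑ a ∈ A, ((iteratedFDeriv ℝ 3 (lg 0) (x - pp) -
      iteratedFDeriv ℝ 3 (lg 0) (y - pp)) - (iteratedFDeriv ℝ 3 (lg (ep A β a)) (x - a) -
      iteratedFDeriv ℝ 3 (lg (ep A β a)) (y - a))) := by
    unfold RR
    simp only [Finset.sum_sub_distrib]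
    abel
  rw [e1, add_mul, Finset.sum_mul]
  refine (norm_add_le _ _).trans (add_le_add ?_ ((norm_sum_le _ _).trans (Finset.sum_le_sum
    fun a ha => ?_)))
  · rw [norm_neg]; exact b0
  · rw [add_mul]
    exact (norm_sub_le _ _).trans (add_le_add b0 (ba a ha))

theorem abs_log_le' {l u t : ℝ} (hl : 0 < l) (h1 : l ≤ t) (h2 : t ≤ u) :
    |Real.log t| ≤ |Real.log l| + |Real.log u| := by
  have ht : 0 < t := lt_of_lt_of_le hl h1
  have a1 : Real.log l ≤ Real.log t := Real.log_le_log hl h1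
  have a2 : Real.log t ≤ Real.log u := Real.log_le_log ht h2
  rw [abs_le]
  constructor
  · have := neg_abs_le (Real.log l)
    have := abs_nonneg (Real.log u)
    linarith
  · have := le_abs_self (Real.log u)
    have := abs_nonneg (Real.log l)
    linarith

theorem RR_zero (h1 : S_SM) (h4 : S_PHI) (A : Finset E) (d : E → ℝ) (hd : ∀ a ∈ A, 0 < d a) (K : Set E)
    (hK : IsCompact K) (hKO : K ⊆ Om) (hKA : ∀ x ∈ K, ∀ a ∈ A, d a ≤ ‖x - a‖) :
    ∃ M : ℝ, 0 ≤ M ∧ ∀ β : ℝ, 0 ≤ β → ∀ x ∈ K,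
      ‖iteratedFDeriv ℝ 0 (W A β) x - β • iteratedFDeriv ℝ 0 phi x‖ ≤ M := by
  obtain ⟨R0, hR0⟩ := hK.isBounded.exists_norm_le
  set R := |R0| with hR
  have hRK : ∀ x ∈ K, ‖x‖ ≤ R := fun x hx => (hR0 x hx).trans (le_abs_self R0)
  have hRn : 0 ≤ R := abs_nonneg _
  set L0 := |Real.log ((8:ℝ) ^ 2)| + |Real.log ((R + ‖pp‖) ^ 2)| with hL0
  set La : E → ℝ := fun a => |Real.log ((d a) ^ 2)| +
    |Real.log ((HH A a / 2) ^ 2 + (R + ‖a‖) ^ 2)| with hLa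
  have hL0n : 0 ≤ L0 := by positivity
  have hLan : ∀ a, 0 ≤ La a := fun a => by simp only [hLa]; positivity
  refine ⟨L0 + ∑ a ∈ A, (L0 + La a), add_nonneg hL0n (Finset.sum_nonneg fun a _ =>
    add_nonneg hL0n (hLan a)), fun β hβ x hx => ?_⟩
  have hx8 := k0_pp x (hKO hx)
  have hxR := hRK x hx
  have b0 : |lg 0 (x - pp)| ≤ L0 := by
    have : lg 0 (x - pp) = Real.log (‖x - pp‖ ^ 2) := by simp [lg]
    rw [this]
    apply abs_log_le' (by norm_num)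
    · gcongr
    · gcongr
      exact (norm_sub_le _ _).trans (by linarith)
  have ba : ∀ a ∈ A, |lg (ep A β a) (x - a)| ≤ La a := by
    intro a ha
    have hp := hd a ha
    have hxa := hKA x hx a ha
    have hH : 0 ≤ HH A a := Finset.prod_nonneg fun b _ => by positivity
    have he : ep A β a ^ 2 ≤ (HH A a / 2) ^ 2 := by
      have h0 : Real.exp (-(4 / 3) * β) ≤ 1 := Real.exp_le_one_iff.2 (by linarith)
      have h2 : 0 ≤ ep A β a := by unfold ep; positivity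
      have h3 : ep A β a ≤ HH A a / 2 := by
        unfold ep
        have := mul_le_mul_of_nonneg_right h0 hH
        linarith
      gcongr
    unfold lg
    apply abs_log_le' (by positivity)
    · have : d a ^ 2 ≤ ‖x - a‖ ^ 2 := by gcongr
      nlinarith [sq_nonneg (ep A β a)]
    · have : ‖x - a‖ ≤ R + ‖a‖ := (norm_sub_le _ _).trans (by linarith)
      gcongr
  have e1 : iteratedFDeriv ℝ 0 (W A β) x - β • iteratedFDeriv ℝ 0 phi x = RR A β 0 x :=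
    W_deriv h1 h4 A β (hKO hx) (fun a ha h => by
      have := hKA x hx a ha
      rw [h, sub_self, norm_zero] at this
      linarith [hd a ha]) 0
  rw [e1]
  unfold RR
  have n0 : ∀ (f : E → ℝ) (z : E), ‖iteratedFDeriv ℝ 0 f z‖ = |f z| := fun f z => by
    rw [norm_iteratedFDeriv_zero, Real.norm_eq_abs]
  refine (norm_add_le _ _).trans (add_le_add ?_ ((norm_sum_le _ _).trans (Finset.sum_le_sum
    fun a ha => ?_)))
  · rw [norm_neg, n0]; exact b0
  · refine (norm_sub_le _ _).trans (add_le_add ?_ ?_)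
    · rw [n0]; exact b0
    · rw [n0]; exact ba a ha

theorem cvw (h1 : S_SM) (h2 : S_KD) (h3 : S_KH) (h4 : S_PHI) : S_CVW := by
  intro A _ K hK hKO hKA α hα0 hα1
  have hdist : ∀ a : E, ∃ δ : ℝ, a ∈ A → 0 < δ ∧ ∀ x ∈ K, δ ≤ ‖x - a‖ := by
    intro a
    by_cases ha : a ∈ A
    · rcases K.eq_empty_or_nonempty with h0 | h0
      · exact ⟨1, fun _ => ⟨one_pos, fun x hx => by simp [h0] at hx⟩⟩
      · obtain ⟨x0, hx0, hmin⟩ := hK.exists_isMinOn h0
          (f := fun x : E => ‖x - a‖) (by fun_prop)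
        refine ⟨‖x0 - a‖, fun _ => ⟨norm_pos_iff.2 (sub_ne_zero.2 ?_), fun x hx => hmin hx⟩⟩
        rintro rfl
        exact hKA x0 ha hx0
    · exact ⟨0, fun h => absurd h ha⟩
  choose d hdd using hdist
  have hd : ∀ a ∈ A, 0 < d a := fun a ha => (hdd a ha).1
  have hdK : ∀ x ∈ K, ∀ a ∈ A, d a ≤ ‖x - a‖ := fun x hx a ha => (hdd a ha).2 x hx
  obtain ⟨M0, p0, H0⟩ := RR_zero h1 h4 A d hd K hK hKO hdK
  obtain ⟨M1, p1, H1⟩ := RR_bound h2 A d hd 1 le_rfl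
  obtain ⟨M2, p2, H2⟩ := RR_bound h2 A d hd 2 (by norm_num)
  obtain ⟨M3, p3, H3⟩ := RR_bound h2 A d hd 3 (by norm_num)
  obtain ⟨M4, p4, H4⟩ := RR_holder h3 A d hd α hα0 hα1
  have hne : ∀ x ∈ K, ∀ a ∈ A, x ≠ a := fun x hx a ha h => hKA a ha (h ▸ hx)
  refine ⟨M0 + M1 + M2 + M3 + M4 + 1, by positivity, fun β hβ => ⟨fun m hm x hx => ?_,
    fun x hx y hy => ?_⟩⟩
  · interval_cases m
    · exact (H0 β hβ x hx).trans (by linarith)
    · rw [W_deriv h1 h4 A β (hKO hx) (hne x hx) 1]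
      exact (H1 β x (hKO hx) (hdK x hx)).trans (by linarith)
    · rw [W_deriv h1 h4 A β (hKO hx) (hne x hx) 2]
      exact (H2 β x (hKO hx) (hdK x hx)).trans (by linarith)
    · rw [W_deriv h1 h4 A β (hKO hx) (hne x hx) 3]
      exact (H3 β x (hKO hx) (hdK x hx)).trans (by linarith)
  · rw [W_deriv h1 h4 A β (hKO hx) (hne x hx) 3, W_deriv h1 h4 A β (hKO hy) (hne y hy) 3]
    refine (H4 β x (hKO hx) y (hKO hy) (hdK x hx) (hdK y hy)).trans ?_
    gcongr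
    linarith

end Pool.Agent.Q82.QC
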