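import Pool.Agent.Q82.QC.Stm

/-!
Project QC: from finite sets of `ℝ⁴` to finite sets of `ℝ³`.
-/

set_option autoImplicit false

open MeasureTheory Filter Topology Real InnerProductSpace Laplacian

namespace Pool.Agent.Q82.QC

/-- The last three coordinates. -/
noncomputable def tl (x : E) : EuclideanSpace ℝ (Fin 3) := WithLp.toLp 2 (fun i => x (Fin.succ i))

/-- The point `(-1, a)`. -/
noncomputable def lift (a : EuclideanSpace ℝ (Fin 3)) : E :=
  WithLp.toLp 2 (Fin.cons (-1) (fun i => a i))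

theorem lift_zero (a : EuclideanSpace ℝ (Fin 3)) : lift a 0 = -1 := by simp [lift]

theorem tl_lift (a : EuclideanSpace ℝ (Fin 3)) : tl (lift a) = a := by
  ext i
  simp [tl, lift]

theorem lift_tl (x : E) (h : x 0 = -1) : lift (tl x) = x := by
  ext i
  refine Fin.cases ?_ (fun j => ?_) i
  · simp [lift, h]
  · simp [lift, tl]

theorem fin1 (h : S_MAIN) (A : Set (EuclideanSpace ℝ (Fin 3))) (hA : A.Finite) :
    ∃ (V u : ℕ → E → ℝ) (b : ℕ → ℝ),
      (∀ k, ContinuousOn (V k) Om ∧ ∃ M : ℝ, ∀ x ∈ Om, |V k x| ≤ M) ∧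
      TendstoLocallyUniformlyOn V (fun _ => 6) atTop Om ∧
      (∀ k, ∀ n : ℕ, ContDiffOn ℝ n (u k) Om) ∧
      (∀ k, ∀ x ∈ Om, Δ (Δ (u k)) x = V k x * Real.exp (4 * u k x)) ∧
      (∃ C : ℝ, ∀ k, IntegrableOn (fun x => Real.exp (4 * u k x)) Om ∧
        ∫ x in Om, Real.exp (4 * u k x) ≤ C) ∧
      conc (fun k x => V k x * Real.exp (4 * u k x)) = {x : E | x 0 = -1 ∧ tl x ∈ A} ∧
      Tendsto b atTop atTop ∧
      HolderConv (Om \ ({x : E | x 0 = -1 ∧ tl x ∈ A} ∪ {x : E | phi x = 0}))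
        (fun k x => u k x / b k) phi := by
  classical
  set F : Finset E := hA.toFinset.image lift with hF
  have hFs : (F : Set E) = {x : E | x 0 = -1 ∧ tl x ∈ A} := by
    ext x
    simp only [hF, Finset.coe_image, Set.Finite.coe_toFinset, Set.mem_image, Set.mem_setOf_eq]
    constructor
    · rintro ⟨a, ha, rfl⟩
      exact ⟨lift_zero a, by rw [tl_lift]; exact ha⟩
    · rintro ⟨h0, h1⟩
      exact ⟨tl x, h1, lift_tl x h0⟩
  have hG : GoodA F := by
    intro a ha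
    have : a ∈ (F : Set E) := ha
    rw [hFs] at this
    exact this.1
  obtain ⟨V, u, b, c1, c2, c3, c4, c5, c6, c7, c8⟩ := h F hG
  rw [hFs] at c6 c8
  refine ⟨V, u, b, c1, c2, c3, c4, c5, c6, c7, ?_⟩
  intro K hK hKU
  exact c8 K hK (fun x hx => ⟨(hKU hx).1, fun h => (hKU hx).2 (Or.inl h)⟩)

end Pool.Agent.Q82.QC
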