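import Pool.Agent.Q82.QC.Stm

/-!
Project QC: the normalised kernel in the domain.
-/

set_option autoImplicit false

open MeasureTheory Filter Topology Real InnerProductSpace Laplacian

namespace Pool.Agent.Q82.QC

theorem k0_pp (x : E) (hx : x ∈ Om) : 8 ≤ ‖x - pp‖ := by
  have h1 : |(x - pp) 0| ≤ ‖x - pp‖ := by
    rw [← Real.norm_eq_abs]
    exact PiLp.norm_apply_le (x - pp) 0
  have h2 : (x - pp) 0 = x 0 - 10 := by simp [pp]
  rw [h2] at h1
  have h3 := hx.2
  rw [abs_of_neg (by linarith)] at h1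
  linarith

theorem k0 : S_K0 := by
  intro e x y he0 he1 hx hy hxy
  have hX := k0_pp x hx
  have hY := k0_pp y hy
  set X := ‖x - pp‖ with hXd
  set Y := ‖y - pp‖ with hYd
  set D := ‖x - y‖ with hDd
  have hD : 0 < D := norm_pos_iff.2 (sub_ne_zero.2 hxy)
  have hXD : X ≤ D + Y := by
    have : x - pp = (x - y) + (y - pp) := by abel
    rw [hXd, this]
    exact norm_add_le _ _
  have hDX : D ≤ X + Y := by
    have : x - y = (x - pp) - (y - pp) := by abel
    rw [hDd, this]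
    exact norm_sub_le _ _
  have e2 : 0 ≤ e ^ 2 := sq_nonneg e
  have e3 : e ^ 2 ≤ 1 := by nlinarith
  have hT : 0 < e ^ 2 + D ^ 2 := by positivity
  have h0 : lg 0 (x - pp) = Real.log (X ^ 2) := by simp [lg, hXd]
  have h1 : lg e (x - y) = Real.log (e ^ 2 + D ^ 2) := rfl
  have hr : 4 * Y * (1 + D⁻¹) = 4 * Y + 4 * Y * D⁻¹ := by ring
  have hYD : 0 ≤ Y * D⁻¹ := by positivity
  rw [h0, h1, abs_le, hr]
  constructor
  · -- lower bound
    have key : Real.log (e ^ 2 + D ^ 2) ≤ Real.log (X ^ 2) + 2 * Real.log (2 + Y) := by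
      have : Real.log (X ^ 2) + 2 * Real.log (2 + Y) = Real.log (X ^ 2 * (2 + Y) ^ 2) := by
        rw [Real.log_mul (by positivity) (by positivity), Real.log_pow (2 + Y)]
        push_cast; ring
      rw [this]
      apply Real.log_le_log hT
      nlinarith [mul_nonneg (by linarith : (0:ℝ) ≤ X) (by linarith : (0:ℝ) ≤ Y),
        mul_le_mul hDX hDX hD.le (by linarith : (0:ℝ) ≤ X + Y), sq_nonneg (X * Y), sq_nonneg X,
        mul_nonneg (mul_nonneg (by linarith : (0:ℝ) ≤ X - 1) (by linarith : (0:ℝ) ≤ X)) (by linarith : (0:ℝ) ≤ Y),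
        mul_nonneg (by linarith : (0:ℝ) ≤ X - 1) (mul_nonneg (by linarith : (0:ℝ) ≤ Y) (by linarith : (0:ℝ) ≤ Y)),
        mul_nonneg (mul_nonneg (by linarith : (0:ℝ) ≤ X - 1) (by linarith : (0:ℝ) ≤ X))
          (mul_nonneg (by linarith : (0:ℝ) ≤ Y) (by linarith : (0:ℝ) ≤ Y))]
    have h2 : Real.log (2 + Y) ≤ 1 + Y := by
      have := Real.log_le_sub_one_of_pos (by linarith : (0:ℝ) < 2 + Y)
      linarith
    nlinarith
  · have key : Real.log (X ^ 2) ≤ Real.log (e ^ 2 + D ^ 2) + 2 * (Y * D⁻¹) := by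
      have h3 : X ^ 2 ≤ (e ^ 2 + D ^ 2) * (1 + Y * D⁻¹) ^ 2 := by
        have h4 : X ≤ D * (1 + Y * D⁻¹) := by
          have : D * (1 + Y * D⁻¹) = D + Y := by
            rw [mul_add, mul_one, mul_comm Y, ← mul_assoc, mul_inv_cancel₀ hD.ne', one_mul]
          linarith
        calc X ^ 2 ≤ (D * (1 + Y * D⁻¹)) ^ 2 := by gcongr
          _ = D ^ 2 * (1 + Y * D⁻¹) ^ 2 := by ring
          _ ≤ (e ^ 2 + D ^ 2) * (1 + Y * D⁻¹) ^ 2 := by gcongr; linarith
      have h5 : 0 < 1 + Y * D⁻¹ := by linarith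
      calc Real.log (X ^ 2) ≤ Real.log ((e ^ 2 + D ^ 2) * (1 + Y * D⁻¹) ^ 2) :=
            Real.log_le_log (by positivity) h3
        _ = Real.log (e ^ 2 + D ^ 2) + 2 * Real.log (1 + Y * D⁻¹) := by
            rw [Real.log_mul hT.ne' (by positivity), Real.log_pow]; push_cast; ring
        _ ≤ _ := by
            have := Real.log_le_sub_one_of_pos h5
            linarith
    nlinarith

end Pool.Agent.Q82.QC
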