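import Pool.Agent.Q82.QC.Stm

/-!
Project QC: the assembly of the sequences.
-/

set_option autoImplicit false

open MeasureTheory Filter Topology Real InnerProductSpace Laplacian

namespace Pool.Agent.Q82.QC

theorem main_contDiffAt_lap {f : E → ℝ} {x : E} (h : ∀ n : ℕ, ContDiffAt ℝ n f x) (n : ℕ) :
    ContDiffAt ℝ n (Δ f) x := by
  have e : Δ f = fun y => ∑ i, iteratedFDeriv ℝ 2 f y ![EuclideanSpace.basisFun (Fin 4) ℝ i,
      EuclideanSpace.basisFun (Fin 4) ℝ i] := by
    funext y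
    rw [laplacian_eq_iteratedFDeriv_orthonormalBasis f (EuclideanSpace.basisFun (Fin 4) ℝ)]
  rw [e]
  refine ContDiffAt.sum fun i _ => ?_
  have h2 : ContDiffAt ℝ n (iteratedFDeriv ℝ 2 f) x :=
    (h (n + 2)).iteratedFDeriv_right (by push_cast; exact le_rfl)
  exact ((ContinuousMultilinearMap.apply ℝ (fun _ : Fin 2 => E) ℝ
    ![EuclideanSpace.basisFun (Fin 4) ℝ i, EuclideanSpace.basisFun (Fin 4) ℝ i]).contDiff.contDiffAt).comp
      x h2

theorem main_lap_lap_add {f g : E → ℝ} {x : E} (hf : ∀ n : ℕ, ContDiffAt ℝ n f x)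
    (hg : ∀ n : ℕ, ContDiffAt ℝ n g x) :
    Δ (Δ (fun y => f y + g y)) x = Δ (Δ f) x + Δ (Δ g) x := by
  have h1 : Δ (f + g) =ᶠ[𝓝 x] (Δ f) + (Δ g) := ContDiffAt.laplacian_add_nhds (hf 2) (hg 2)
  have h2 : Δ (Δ (f + g)) x = Δ (Δ f + Δ g) x := (laplacian_congr_nhds h1).eq_of_nhds
  have h3 : Δ (Δ f + Δ g) x = Δ (Δ f) x + Δ (Δ g) x :=
    ContDiffAt.laplacian_add (main_contDiffAt_lap hf 2) (main_contDiffAt_lap hg 2)
  exact h2.trans h3

theorem main_continuous_bd (e : ℝ) : Continuous (bd e) := by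
  rcases eq_or_ne e 0 with rfl | he
  · have : bd 0 = fun _ => (0 : ℝ) := by
      funext z; simp [bd]
    rw [this]; exact continuous_const
  · unfold bd
    refine continuous_const.div (by fun_prop) fun z => ?_
    have : 0 < e ^ 2 := by positivity
    positivity

theorem main_continuous_B (A : Finset E) (β : ℝ) : Continuous (B A β) := by
  unfold B
  exact continuous_finset_sum _ fun a _ => (main_continuous_bd _).comp (continuous_id.sub continuous_const)

theorem main_Kk (k : ℕ) : IsCompact {x : E | |x 0| ≤ 2 - 1 / ((k : ℝ) + 1) ∧ ‖x‖ ≤ (k : ℝ) + 1} ∧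
    {x : E | |x 0| ≤ 2 - 1 / ((k : ℝ) + 1) ∧ ‖x‖ ≤ (k : ℝ) + 1} ⊆ Om := by
  constructor
  · refine (isCompact_closedBall (0 : E) ((k : ℝ) + 1)).of_isClosed_subset ?_ ?_
    · refine IsClosed.inter ?_ ?_
      · have h : Continuous fun x : E => |x 0| := by fun_prop
        exact isClosed_le h continuous_const
      · exact isClosed_le continuous_norm continuous_const
    · intro x hx
      simpa using hx.2
  · intro x hx
    have h1 : 0 < 1 / ((k : ℝ) + 1) := by positivity
    have h2 : |x 0| < 2 := lt_of_le_of_lt hx.1 (by linarith)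
    exact abs_lt.1 h2

theorem main_pp (x : E) (hx : x ∈ Om) : 8 ≤ ‖x - pp‖ := by
  have h1 : |(x - pp) 0| ≤ ‖x - pp‖ := by
    have := EuclideanSpace.norm_eq (x - pp)
    rw [← Real.norm_eq_abs]
    exact PiLp.norm_apply_le (x - pp) 0
  have h2 : (x - pp) 0 = x 0 - 10 := by simp [pp]
  rw [h2] at h1
  have h3 := hx.2
  rw [abs_of_neg (by linarith)] at h1
  linarith

theorem main_int_abs {C δ : ℝ} {g : E → ℝ} (h : Ctl C δ g) : ∫ x, |g x| ≤ δ := by
  obtain ⟨h1, h2, h3, _, h5⟩ := h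
  refine le_trans (integral_mono ?_ ?_ ?_) h5
  · exact (h1.abs).integrable_of_hasCompactSupport (by simpa using h2.norm)
  · refine Continuous.integrable_of_hasCompactSupport (by fun_prop) ?_
    exact HasCompactSupport.mul_left (by simpa using h2.norm)
  · intro x
    rcases eq_or_ne (g x) 0 with h0 | h0
    · simp [h0]
    · have hx : x ∈ Om := h3 (subset_tsupport g h0)
      have := main_pp x hx
      nlinarith [abs_nonneg (g x)]

theorem main1 (hWL : S_WL) (hPOTL : S_POTL) (hPOTB : S_POTB) (hDEC : S_DEC) (hGRO : S_GRO)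
    (hCTL : S_CTL) (hVOL : S_VOL) (hEPS : S_EPS) (hMOLI : S_MOLI) (hPOT0 : S_POT0)
    (hCONV : S_CONV) (hCONC : S_CONC) (hVCONV : S_VCONV) : S_MAIN := by
  intro A hA
  obtain ⟨C, hC, hctl⟩ := hCTL A hA
  obtain ⟨δ, hδ, hpot⟩ := hPOT0 C hC 1 one_pos
  obtain ⟨CV, hvol⟩ := hVOL A hA
  obtain ⟨β0, hβ0⟩ := Filter.eventually_atTop.1 ((hctl δ hδ).and hvol)
  set b : ℕ → ℝ := fun k => max β0 1 + k with hb
  have hbb : ∀ k, β0 ≤ b k := fun k =>
    (le_max_left β0 1).trans (le_add_of_nonneg_right (Nat.cast_nonneg k))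
  have hb1 : ∀ k, 1 ≤ b k := fun k =>
    (le_max_right β0 1).trans (le_add_of_nonneg_right (Nat.cast_nonneg k))
  have hbt : Tendsto b atTop atTop :=
    tendsto_atTop_add_const_left _ _ tendsto_natCast_atTop_atTop
  have hctlk : ∀ k, Ctl C δ (gg A (b k)) := fun k => (hβ0 (b k) (hbb k)).1
  have hctle : ∀ δ' : ℝ, 0 < δ' → ∀ᶠ k in atTop, Ctl C δ' (gg A (b k)) := fun δ' h' =>
    hbt.eventually (hctl δ' h')
  have hgc : ∀ k, Continuous (gg A (b k)) := fun k => (hctlk k).1
  have hgs : ∀ k, HasCompactSupport (gg A (b k)) := fun k => (hctlk k).2.1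
  have hex : ∀ k : ℕ, ∃ e : ℝ, 0 < e ∧ e ≤ 1 ∧ ∀ x ∈ {x : E | |x 0| ≤ 2 - 1 / ((k : ℝ) + 1) ∧
      ‖x‖ ≤ (k : ℝ) + 1}, |mol e (gg A (b k)) x - gg A (b k) x| ≤
        1 / ((k : ℝ) + 1) * (6 * Real.exp (4 * W A (b k) x)) := fun k =>
    hEPS A hA (b k) (hgc k) (hgs k) _ (by positivity) _ (main_Kk k).1 (main_Kk k).2
  choose e he0 he1 hee using hex
  set u : ℕ → E → ℝ := fun k x => W A (b k) x + pot (e k) (gg A (b k)) x with hu
  set V : ℕ → E → ℝ := fun k x => (B A (b k) x + mol (e k) (gg A (b k)) x) *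
    Real.exp (-(4 * (W A (b k) x + pot (e k) (gg A (b k)) x))) with hV
  have hVu : ∀ k x, V k x * Real.exp (4 * u k x) = B A (b k) x + mol (e k) (gg A (b k)) x := by
    intro k x
    simp only [hV, hu]
    rw [mul_assoc, ← Real.exp_add, neg_add_cancel, Real.exp_zero, mul_one]
  have hWs : ∀ k, ∀ x ∈ Om, ∀ n : ℕ, ContDiffAt ℝ n (W A (b k)) x := fun k x hx =>
    (hWL A hA (b k) x hx).1
  have hPs : ∀ k, ∀ x ∈ Om, ∀ n : ℕ, ContDiffAt ℝ n (pot (e k) (gg A (b k))) x := fun k x hx =>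
    (hPOTL (e k) _ (he0 k) (hgc k) (hgs k) x hx).1
  have hus : ∀ k, ∀ x ∈ Om, ∀ n : ℕ, ContDiffAt ℝ n (u k) x := fun k x hx n =>
    (hWs k x hx n).add (hPs k x hx n)
  have hmc : ∀ k, Continuous (mol (e k) (gg A (b k))) := fun k =>
    (hMOLI (e k) _ (he0 k) (hgc k) (hgs k)).1
  refine ⟨V, u, b, ?_, ?_, ?_, ?_, ?_, ?_, hbt, ?_⟩
  · intro k
    constructor
    · have huc : ContinuousOn (u k) Om := fun x hx =>
        ((hus k x hx 0).continuousAt).continuousWithinAt
      refine ((main_continuous_B A (b k)).add (hmc k)).continuousOn.mul ?_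
      exact Real.continuous_exp.comp_continuousOn ((continuousOn_const.mul huc).neg)
    · obtain ⟨M1, h1⟩ := hDEC.1 A hA (b k)
      obtain ⟨M2, h2⟩ := hDEC.2 (e k) _ (he0 k) (hgc k) (hgs k)
      obtain ⟨M3, h3⟩ := hGRO A hA (b k) (by linarith [hb1 k])
      obtain ⟨M4, h4⟩ := hPOTB (e k) _ (he0 k) (hgc k) (hgs k)
      refine ⟨(M1 + M2) * M3 * Real.exp (4 * M4), fun x hx => ?_⟩
      have hp : 0 < ‖x - pp‖ ^ 8 := by
        have := main_pp x hx
        positivity
      have e1 : V k x = (B A (b k) x + mol (e k) (gg A (b k)) x) * Real.exp (-(4 * W A (b k) x)) *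
          Real.exp (-(4 * pot (e k) (gg A (b k)) x)) := by
        simp only [hV]
        rw [mul_assoc, ← Real.exp_add]
        have : -(4 * W A (b k) x) + -(4 * pot (e k) (gg A (b k)) x) =
            -(4 * (W A (b k) x + pot (e k) (gg A (b k)) x)) := by ring
        rw [this]
      rw [e1, abs_mul, abs_mul, abs_of_pos (Real.exp_pos _), abs_of_pos (Real.exp_pos _)]
      have a1 : |B A (b k) x + mol (e k) (gg A (b k)) x| ≤ (M1 + M2) / ‖x - pp‖ ^ 8 := by
        rw [add_div]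
        exact (abs_add_le _ _).trans (add_le_add (h1 x hx) (h2 x hx))
      have a2 : Real.exp (-(4 * pot (e k) (gg A (b k)) x)) ≤ Real.exp (4 * M4) := by
        apply Real.exp_le_exp.2
        have := (abs_le.1 (h4 x hx)).1
        linarith
      have a3 : 0 ≤ (M1 + M2) / ‖x - pp‖ ^ 8 := (abs_nonneg _).trans a1
      have a4 : |B A (b k) x + mol (e k) (gg A (b k)) x| * Real.exp (-(4 * W A (b k) x)) ≤
          (M1 + M2) * M3 := by
        refine (mul_le_mul a1 (h3 x hx) (Real.exp_pos _).le a3).trans (le_of_eq ?_)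
        rw [div_mul_eq_mul_div, mul_comm M3, ← mul_assoc, mul_right_comm, mul_div_assoc,
          div_self hp.ne', mul_one]
      refine mul_le_mul a4 a2 (Real.exp_pos _).le ((mul_nonneg (abs_nonneg _) (Real.exp_pos _).le).trans a4)
  · exact hVCONV A hA b e hbt (fun k => ⟨he0 k, he1 k⟩) ⟨C, hC, hctle⟩
      (fun k x h1 h2 => hee k x ⟨h1, h2⟩)
  · intro k n x hx
    exact (hus k x hx n).contDiffWithinAt
  · intro k x hx
    rw [hVu]
    have := main_lap_lap_add (hWs k x hx) (hPs k x hx)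
    rw [hu]
    rw [this, (hWL A hA (b k) x hx).2, (hPOTL (e k) _ (he0 k) (hgc k) (hgs k) x hx).2]
  · refine ⟨Real.exp 4 * CV, fun k => ?_⟩
    obtain ⟨hi, hle⟩ := (hβ0 (b k) (hbb k)).2
    have hm : MeasurableSet Om := by
      have h0 : Continuous fun x : E => x 0 := by fun_prop
      have : IsOpen Om := (isOpen_lt continuous_const h0).inter (isOpen_lt h0 continuous_const)
      exact this.measurableSet
    have hb2 : ∀ x ∈ Om, Real.exp (4 * u k x) ≤ Real.exp 4 * Real.exp (4 * W A (b k) x) := by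
      intro x hx
      rw [← Real.exp_add]
      apply Real.exp_le_exp.2
      have := (abs_le.1 (hpot (e k) _ (he0 k) (he1 k) (hctlk k) x hx)).2
      simp only [hu]
      linarith
    have huc : ContinuousOn (u k) Om := fun x hx =>
      ((hus k x hx 0).continuousAt).continuousWithinAt
    have hI : IntegrableOn (fun x => Real.exp (4 * u k x)) Om := by
      refine Integrable.mono' (hi.const_mul (Real.exp 4)) ?_ ?_
      · exact (Real.continuous_exp.comp_continuousOn (continuousOn_const.mul huc)).aestronglyMeasurable hm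
      · refine (ae_restrict_iff' hm).2 (Eventually.of_forall fun x hx => ?_)
        rw [Real.norm_eq_abs, abs_of_pos (Real.exp_pos _)]
        exact hb2 x hx
    refine ⟨hI, ?_⟩
    calc ∫ x in Om, Real.exp (4 * u k x) ≤ ∫ x in Om, Real.exp 4 * Real.exp (4 * W A (b k) x) :=
          setIntegral_mono_on hI (hi.const_mul _) hm hb2
      _ = Real.exp 4 * ∫ x in Om, Real.exp (4 * W A (b k) x) := integral_const_mul _ _
      _ ≤ Real.exp 4 * CV := mul_le_mul_of_nonneg_left hle (Real.exp_pos _).le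
  · refine hCONC A hA b e (fun k => gg A (b k)) _ hbt he0 (fun k => ⟨hgc k, hgs k⟩) ?_ ?_
    · rw [Metric.tendsto_atTop]
      intro η hη
      obtain ⟨N, hN⟩ := Filter.eventually_atTop.1 (hctle (η / 2) (by linarith))
      refine ⟨N, fun k hk => ?_⟩
      have h1 := main_int_abs (hN k hk)
      have h2 : 0 ≤ ∫ x, |gg A (b k) x| := integral_nonneg fun x => abs_nonneg _
      rw [Real.dist_eq, sub_zero, abs_of_nonneg h2]
      linarith
    · intro k x _
      exact hVu k x
  · exact hCONV A hA b e (fun k => gg A (b k)) (fun k => lt_of_lt_of_le one_pos (hb1 k)) hbt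
      (fun k => ⟨he0 k, he1 k⟩) ⟨C, hC, hctle⟩

end Pool.Agent.Q82.QC
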