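import Pool.Agent.Q82.QC.K0

/-!
Project QC: the correction is small.
-/

set_option autoImplicit false

open MeasureTheory Filter Topology Real InnerProductSpace Laplacian

namespace Pool.Agent.Q82.QC

/-- The weighted absolute value of the source. -/
noncomputable def wt (g : E → ℝ) (y : E) : ℝ := ‖y - pp‖ * |g y|

theorem wt_facts {C δ : ℝ} {g : E → ℝ} (h : Ctl C δ g) :
    Continuous (wt g) ∧ HasCompactSupport (wt g) ∧ (∀ y, 0 ≤ wt g y) ∧ (∀ y, wt g y ≤ C) ∧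
      ∫ y, wt g y ≤ δ := by
  obtain ⟨h1, h2, _, h4, h5⟩ := h
  refine ⟨?_, ?_, fun y => by unfold wt; positivity, h4, h5⟩
  · unfold wt; fun_prop
  · exact HasCompactSupport.mul_left (by simpa using h2.norm)

theorem abs_le_wt {C δ : ℝ} {g : E → ℝ} (h : Ctl C δ g) (y : E) : |g y| ≤ wt g y := by
  rcases eq_or_ne (g y) 0 with h0 | h0
  · simp [wt, h0]
  · have := k0_pp y (h.2.2.1 (subset_tsupport g h0))
    unfold wt
    nlinarith [abs_nonneg (g y)]

theorem pi_bound : (8 : ℝ) ≤ 16 * π ^ 2 := by nlinarith [Real.pi_gt_three]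

theorem pot0 (h1 : S_K0) (h2 : S_RIESZ) : S_POT0 := by
  intro C hC η hη
  obtain ⟨δ0, hδ0, H0⟩ := h2 0 le_rfl (by norm_num) C hC η hη
  obtain ⟨δ1, hδ1, H1⟩ := h2 1 (by norm_num) (by norm_num) C hC η hη
  refine ⟨min δ0 δ1, lt_min hδ0 hδ1, fun e g he0 he1 hg x hx => ?_⟩
  obtain ⟨w1, w2, w3, w4, w5⟩ := wt_facts hg
  obtain ⟨I0, J0⟩ := H0 (wt g) w1 w2 w3 w4 (w5.trans (min_le_left _ _)) x
  obtain ⟨I1, J1⟩ := H1 (wt g) w1 w2 w3 w4 (w5.trans (min_le_right _ _)) x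
  have hb : ‖∫ y, (lg 0 (x - pp) - lg e (x - y)) * g y‖ ≤
      ∫ y, 4 * (‖x - y‖ ^ (-(0:ℝ)) * wt g y + ‖x - y‖ ^ (-(1:ℝ)) * wt g y) := by
    refine norm_integral_le_of_norm_le ((I0.add I1).const_mul 4) ?_
    have hne : ∀ᵐ y : E, y ≠ x := by
      rw [ae_iff]; simp
    filter_upwards [hne] with y hy
    rcases eq_or_ne (g y) 0 with h0 | h0
    · simp [h0, wt]
    · have hyO := hg.2.2.1 (subset_tsupport g h0)
      have := h1 e x y he0.le he1 hx hyO hy.symm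
      rw [norm_mul, Real.norm_eq_abs, Real.norm_eq_abs, neg_zero, Real.rpow_zero, Real.rpow_neg_one]
      unfold wt
      calc |lg 0 (x - pp) - lg e (x - y)| * |g y| ≤ (4 * ‖y - pp‖ * (1 + ‖x - y‖⁻¹)) * |g y| := by
            gcongr
        _ = _ := by ring
  rw [integral_const_mul, integral_add I0 I1] at hb
  unfold pot
  rw [abs_mul, abs_of_pos (by positivity : (0:ℝ) < (16 * π ^ 2)⁻¹)]
  rw [Real.norm_eq_abs] at hb
  have h8 := pi_bound
  have : |∫ y, (lg 0 (x - pp) - lg e (x - y)) * g y| ≤ 8 * η := by linarith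
  calc (16 * π ^ 2)⁻¹ * |∫ y, (lg 0 (x - pp) - lg e (x - y)) * g y| ≤ (16 * π ^ 2)⁻¹ * (8 * η) := by
        gcongr
    _ ≤ 8⁻¹ * (8 * η) := by gcongr
    _ = η := by ring

end Pool.Agent.Q82.QC
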