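import Pool.Agent.Q82.QC.POT0

/-!
Project QC: the derivatives of the correction are small.
-/

set_option autoImplicit false

open MeasureTheory Filter Topology Real InnerProductSpace Laplacian

namespace Pool.Agent.Q82.QC

theorem lg_contDiff (h1 : S_SM) {e : ℝ} (he : 0 < e) (n : ℕ) : ContDiff ℝ n (lg e) := by
  rw [contDiff_iff_contDiffAt]
  intro z
  exact h1 e z (by positivity) n

theorem pot_eq (h1 : S_SM) {e : ℝ} (he : 0 < e) {g : E → ℝ} (hg : Continuous g)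
    (hs : HasCompactSupport g) : pot e g = (16 * π ^ 2)⁻¹ • ((∫ y, g y) • (fun z => lg 0 (z - pp)) -
      fun z => ∫ y, lg e (z - y) * g y) := by
  funext x
  have hc : Continuous (lg e) := (lg_contDiff h1 he 0).continuous
  have i1 : Integrable (fun y => lg 0 (x - pp) * g y) :=
    (hg.integrable_of_hasCompactSupport hs).const_mul _
  have i2 : Integrable (fun y => lg e (x - y) * g y) := by
    refine Continuous.integrable_of_hasCompactSupport ?_ (hs.mul_left)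
    exact (hc.comp (continuous_const.sub continuous_id)).mul hg
  simp only [pot, Pi.smul_apply, Pi.sub_apply, smul_eq_mul]
  congr 1
  rw [mul_comm (∫ y, g y), ← integral_const_mul, ← integral_sub i1 i2]
  congr 1
  funext y
  ring

theorem pot_deriv (h1 : S_SM) (h2 : S_CD) {e : ℝ} (he : 0 < e) {g : E → ℝ} (hg : Continuous g)
    (hs : HasCompactSupport g) {x : E} (hx : x ∈ Om) (m : ℕ) :
    iteratedFDeriv ℝ m (pot e g) x = (16 * π ^ 2)⁻¹ • ((∫ y, g y) •
      iteratedFDeriv ℝ m (lg 0) (x - pp) - ∫ y, g y • iteratedFDeriv ℝ m (lg e) (x - y)) := by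
  have hx8 := k0_pp x hx
  have hp : 0 < (0:ℝ) ^ 2 + ‖x - pp‖ ^ 2 := by positivity
  have c1 : ContDiffAt ℝ m (fun z : E => lg 0 (z - pp)) x := by
    have : ContDiffAt ℝ m (lg 0) (x - pp) := h1 0 _ hp m
    have h' : ContDiffAt ℝ m (fun z : E => z - pp) x := contDiffAt_id.sub contDiffAt_const
    exact ContDiffAt.comp (g := lg 0) (f := fun z : E => z - pp) x this h'
  have hL := h2 (lg e) g (fun n => lg_contDiff h1 he n) hg hs
  have c2 : ContDiffAt ℝ m (fun z : E => ∫ y, lg e (z - y) * g y) x := (hL.1 m).contDiffAt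
  have c3 : ContDiffAt ℝ m ((∫ y, g y) • (fun z : E => lg 0 (z - pp))) x :=
    ContDiffAt.const_smul (f := fun z : E => lg 0 (z - pp)) (∫ y, g y) c1
  have c4 : ContDiffAt ℝ m (((∫ y, g y) • (fun z : E => lg 0 (z - pp))) -
      fun z => ∫ y, lg e (z - y) * g y) x := c3.sub c2
  rw [pot_eq h1 he hg hs, iteratedFDeriv_const_smul_apply c4,
    iteratedFDeriv_sub_apply c3 c2, iteratedFDeriv_const_smul_apply c1, iteratedFDeriv_comp_sub,
    hL.2 m x]

theorem int_le_wt {C δ : ℝ} {g : E → ℝ} (h : Ctl C δ g) : |∫ y, g y| ≤ δ := by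
  obtain ⟨w1, w2, w3, w4, w5⟩ := wt_facts h
  refine (abs_integral_le_integral_abs).trans (le_trans (integral_mono ?_ ?_ ?_) w5)
  · exact (h.1.abs).integrable_of_hasCompactSupport (by simpa using h.2.1.norm)
  · exact w1.integrable_of_hasCompactSupport w2
  · exact fun y => abs_le_wt h y

theorem pot3_one (h1 : S_SM) (h2 : S_CD) (h3 : S_KD) (h4 : S_RIESZ) (m : ℕ) (hm : 1 ≤ m)
    (hm3 : m ≤ 3) (C : ℝ) (hC : 0 < C) (η : ℝ) (hη : 0 < η) : ∃ δ : ℝ, 0 < δ ∧
    ∀ (e : ℝ) (g : E → ℝ), 0 < e → e ≤ 1 → Ctl C δ g → ∀ x ∈ Om,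
      ‖iteratedFDeriv ℝ m (pot e g) x‖ ≤ η := by
  obtain ⟨K, hK, hKD⟩ := h3 m hm
  have hm4 : (m : ℝ) < 4 := by
    have : (m : ℝ) ≤ 3 := by exact_mod_cast hm3
    linarith
  obtain ⟨δ1, hδ1, H1⟩ := h4 m (by positivity) hm4 C hC (η / K) (by positivity)
  refine ⟨min δ1 (η / K), lt_min hδ1 (by positivity), fun e g he0 he1 hg x hx => ?_⟩
  obtain ⟨w1, w2, w3, w4, w5⟩ := wt_facts hg
  obtain ⟨I1, J1⟩ := H1 (wt g) w1 w2 w3 w4 (w5.trans (min_le_left _ _)) x
  have hx8 := k0_pp x hx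
  rw [pot_deriv h1 h2 he0 hg.1 hg.2.1 hx m, norm_smul, Real.norm_eq_abs,
    abs_of_pos (by positivity : (0:ℝ) < (16 * π ^ 2)⁻¹)]
  have a1 : ‖(∫ y, g y) • iteratedFDeriv ℝ m (lg 0) (x - pp)‖ ≤ η := by
    rw [norm_smul, Real.norm_eq_abs]
    have b1 : |∫ y, g y| ≤ η / K := (int_le_wt hg).trans (min_le_right _ _)
    have b2 : ‖iteratedFDeriv ℝ m (lg 0) (x - pp)‖ ≤ K := by
      refine (hKD 0 (x - pp) (norm_pos_iff.1 (by linarith))).trans ?_
      apply div_le_self hK.le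
      exact one_le_pow₀ (by linarith)
    calc _ ≤ η / K * K := by gcongr
      _ = η := by field_simp
  have a2 : ‖∫ y, g y • iteratedFDeriv ℝ m (lg e) (x - y)‖ ≤ η := by
    have hb : ‖∫ y, g y • iteratedFDeriv ℝ m (lg e) (x - y)‖ ≤
        ∫ y, K * (‖x - y‖ ^ (-(m:ℝ)) * wt g y) := by
      refine norm_integral_le_of_norm_le (I1.const_mul K) ?_
      have hne : ∀ᵐ y : E, y ≠ x := by
        rw [ae_iff]; simp
      filter_upwards [hne] with y hy
      have hxy : x - y ≠ 0 := sub_ne_zero.2 hy.symm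
      have hxy' : 0 < ‖x - y‖ := norm_pos_iff.2 hxy
      rw [norm_smul, Real.norm_eq_abs, Real.rpow_neg (norm_nonneg _), Real.rpow_natCast]
      calc |g y| * ‖iteratedFDeriv ℝ m (lg e) (x - y)‖ ≤ wt g y * (K / ‖x - y‖ ^ m) := by
            gcongr
            · exact w3 y
            · exact abs_le_wt hg y
            · exact hKD e _ hxy
        _ = _ := by rw [div_eq_mul_inv]; ring
    rw [integral_const_mul] at hb
    calc _ ≤ K * (η / K) := hb.trans (by gcongr)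
      _ = η := by field_simp
  have h8 := pi_bound
  calc (16 * π ^ 2)⁻¹ * _ ≤ 8⁻¹ * (η + η) := by
        gcongr
        exact (norm_sub_le _ _).trans (add_le_add a1 a2)
    _ ≤ η := by linarith

theorem pot3 (h1 : S_SM) (h2 : S_CD) (h3 : S_KD) (h4 : S_RIESZ) : S_POT3 := by
  intro C hC η hη
  obtain ⟨δ1, p1, H1⟩ := pot3_one h1 h2 h3 h4 1 le_rfl (by norm_num) C hC η hη
  obtain ⟨δ2, p2, H2⟩ := pot3_one h1 h2 h3 h4 2 (by norm_num) (by norm_num) C hC η hη
  obtain ⟨δ3, p3, H3⟩ := pot3_one h1 h2 h3 h4 3 (by norm_num) le_rfl C hC η hη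
  refine ⟨min δ1 (min δ2 δ3), lt_min p1 (lt_min p2 p3), fun e g he0 he1 hg m hm hm3 x hx => ?_⟩
  have hmono : ∀ δ', min δ1 (min δ2 δ3) ≤ δ' → Ctl C δ' g := fun δ' h =>
    ⟨hg.1, hg.2.1, hg.2.2.1, hg.2.2.2.1, hg.2.2.2.2.trans h⟩
  interval_cases m
  · exact H1 e g he0 he1 (hmono _ (min_le_left _ _)) x hx
  · exact H2 e g he0 he1 (hmono _ ((min_le_right _ _).trans (min_le_left _ _))) x hx
  · exact H3 e g he0 he1 (hmono _ ((min_le_right _ _).trans (min_le_right _ _))) x hx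

theorem poth (h1 : S_SM) (h2 : S_CD) (h3 : S_KH) (h4 : S_RIESZ) : S_POTH := by
  intro α hα0 hα1 C hC η hη
  obtain ⟨K, hK, hKH⟩ := h3 α hα0 hα1
  obtain ⟨δ1, hδ1, H1⟩ := h4 (3 + α) (by linarith) (by linarith) C hC (η / K) (by positivity)
  refine ⟨min δ1 (η / K), lt_min hδ1 (by positivity), fun e g he0 he1 hg x hx y hy => ?_⟩
  obtain ⟨w1, w2, w3, w4, w5⟩ := wt_facts hg
  obtain ⟨I1, J1⟩ := H1 (wt g) w1 w2 w3 w4 (w5.trans (min_le_left _ _)) x
  obtain ⟨I2, J2⟩ := H1 (wt g) w1 w2 w3 w4 (w5.trans (min_le_left _ _)) y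
  have hx8 := k0_pp x hx
  have hy8 := k0_pp y hy
  rw [pot_deriv h1 h2 he0 hg.1 hg.2.1 hx 3, pot_deriv h1 h2 he0 hg.1 hg.2.1 hy 3, ← smul_sub,
    norm_smul, Real.norm_eq_abs, abs_of_pos (by positivity : (0:ℝ) < (16 * π ^ 2)⁻¹)]
  have hD : 0 ≤ ‖x - y‖ ^ α := by positivity
  have hc3 : Continuous (iteratedFDeriv ℝ 3 (lg e)) :=
    (lg_contDiff h1 he0 3).continuous_iteratedFDeriv le_rfl
  have hint : ∀ z : E, Integrable (fun w => g w • iteratedFDeriv ℝ 3 (lg e) (z - w)) := fun z =>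
    (hg.1.smul (hc3.comp (continuous_const.sub continuous_id))).integrable_of_hasCompactSupport
      (hg.2.1.smul_right)
  have e1 : ((∫ y, g y) • iteratedFDeriv ℝ 3 (lg 0) (x - pp) -
      ∫ w, g w • iteratedFDeriv ℝ 3 (lg e) (x - w)) - ((∫ y, g y) • iteratedFDeriv ℝ 3 (lg 0) (y - pp) -
      ∫ w, g w • iteratedFDeriv ℝ 3 (lg e) (y - w)) =
      (∫ y, g y) • (iteratedFDeriv ℝ 3 (lg 0) (x - pp) - iteratedFDeriv ℝ 3 (lg 0) (y - pp)) -
      ∫ w, g w • (iteratedFDeriv ℝ 3 (lg e) (x - w) - iteratedFDeriv ℝ 3 (lg e) (y - w)) := by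
    simp only [smul_sub]
    rw [integral_sub (hint x) (hint y)]
    abel
  rw [e1]
  have a1 : ‖(∫ y, g y) • (iteratedFDeriv ℝ 3 (lg 0) (x - pp) -
      iteratedFDeriv ℝ 3 (lg 0) (y - pp))‖ ≤ 2 * η * ‖x - y‖ ^ α := by
    rw [norm_smul, Real.norm_eq_abs]
    have b1 : |∫ y, g y| ≤ η / K := (int_le_wt hg).trans (min_le_right _ _)
    have b2 : ‖iteratedFDeriv ℝ 3 (lg 0) (x - pp) - iteratedFDeriv ℝ 3 (lg 0) (y - pp)‖ ≤
        K * ‖x - y‖ ^ α * 2 := by
      refine (hKH 0 (x - pp) (y - pp) (norm_pos_iff.1 (by linarith))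
        (norm_pos_iff.1 (by linarith))).trans ?_
      have : x - pp - (y - pp) = x - y := by abel
      rw [this]
      have c1 : ‖x - pp‖ ^ (-3 - α) ≤ 1 := Real.rpow_le_one_of_one_le_of_nonpos (by linarith) (by linarith)
      have c2 : ‖y - pp‖ ^ (-3 - α) ≤ 1 := Real.rpow_le_one_of_one_le_of_nonpos (by linarith) (by linarith)
      gcongr
      linarith
    calc _ ≤ η / K * (K * ‖x - y‖ ^ α * 2) := by gcongr
      _ = 2 * η * ‖x - y‖ ^ α := by field_simp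
  have a2 : ‖∫ w, g w • (iteratedFDeriv ℝ 3 (lg e) (x - w) - iteratedFDeriv ℝ 3 (lg e) (y - w))‖ ≤
      2 * η * ‖x - y‖ ^ α := by
    have hb : ‖∫ w, g w • (iteratedFDeriv ℝ 3 (lg e) (x - w) - iteratedFDeriv ℝ 3 (lg e) (y - w))‖ ≤
        ∫ w, (K * ‖x - y‖ ^ α) * (‖x - w‖ ^ (-(3 + α)) * wt g w + ‖y - w‖ ^ (-(3 + α)) * wt g w) := by
      refine norm_integral_le_of_norm_le ((I1.add I2).const_mul _) ?_
      have hne : ∀ᵐ w : E, w ≠ x ∧ w ≠ y := by
        have k1 : ∀ᵐ w : E, w ≠ x := by rw [ae_iff]; simp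
        have k2 : ∀ᵐ w : E, w ≠ y := by rw [ae_iff]; simp
        exact k1.and k2
      filter_upwards [hne] with w hw
      have hxw : x - w ≠ 0 := sub_ne_zero.2 hw.1.symm
      have hyw : y - w ≠ 0 := sub_ne_zero.2 hw.2.symm
      have := hKH e (x - w) (y - w) hxw hyw
      have e2 : x - w - (y - w) = x - y := by abel
      rw [e2] at this
      have e3 : -3 - α = -(3 + α) := by ring
      rw [e3] at this
      rw [norm_smul, Real.norm_eq_abs]
      calc |g w| * _ ≤ wt g w * (K * ‖x - y‖ ^ α * (‖x - w‖ ^ (-(3 + α)) + ‖y - w‖ ^ (-(3 + α)))) := by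
            gcongr
            · exact w3 w
            · exact abs_le_wt hg w
        _ = _ := by ring
    rw [integral_const_mul, integral_add I1 I2] at hb
    calc _ ≤ (K * ‖x - y‖ ^ α) * (η / K + η / K) := hb.trans (by gcongr)
      _ = 2 * η * ‖x - y‖ ^ α := by field_simp; ring
  have h8 := pi_bound
  calc (16 * π ^ 2)⁻¹ * _ ≤ 8⁻¹ * (2 * η * ‖x - y‖ ^ α + 2 * η * ‖x - y‖ ^ α) := by
        gcongr
        exact (norm_sub_le _ _).trans (add_le_add a1 a2)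
    _ ≤ η * ‖x - y‖ ^ α := by nlinarith [mul_nonneg hη.le hD]

end Pool.Agent.Q82.QC
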