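import Pool.Agent.Q82.QC.Stm

/-!
# Project QC, job VCONV (helper299): the limit of the coefficients
-/

set_option autoImplicit false

open MeasureTheory Filter Topology Real InnerProductSpace Laplacian

namespace Pool.Agent.Q82.QC

namespace VC

theorem cont_coord : Continuous fun x : E => x 0 := by fun_prop

theorem isOpen_Om : IsOpen Om :=
  (isOpen_lt continuous_const cont_coord).inter (isOpen_lt cont_coord continuous_const)

/-- compact subsets of the domain are eventually contained in the exhaustion -/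
theorem exhaust {K : Set E} (hK : IsCompact K) (hKO : K ⊆ Om) :
    ∀ᶠ k : ℕ in atTop, ∀ x ∈ K, |x 0| ≤ 2 - 1 / ((k : ℝ) + 1) ∧ ‖x‖ ≤ (k : ℝ) + 1 := by
  have h1 : ∃ c : ℝ, c < 2 ∧ ∀ x ∈ K, |x 0| ≤ c := by
    rcases K.eq_empty_or_nonempty with h | h
    · exact ⟨0, by norm_num, by simp [h]⟩
    · obtain ⟨y, hy, hmax⟩ := hK.exists_isMaxOn h (cont_coord.abs.continuousOn)
      refine ⟨|y 0|, ?_, fun x hx => hmax hx⟩
      have := hKO hy
      exact abs_lt.2 ⟨this.1, this.2⟩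
  obtain ⟨c, hc, hcK⟩ := h1
  obtain ⟨R, hR⟩ := hK.isBounded.exists_norm_le
  have h2 : Tendsto (fun k : ℕ => 1 / ((k : ℝ) + 1)) atTop (𝓝 0) :=
    tendsto_one_div_add_atTop_nhds_zero_nat
  have h3 : ∀ᶠ k : ℕ in atTop, 1 / ((k : ℝ) + 1) < 2 - c := h2.eventually (gt_mem_nhds (by linarith))
  filter_upwards [h3, eventually_ge_atTop ⌈R⌉₊] with k hk hk2 x hx
  refine ⟨by linarith [hcK x hx], ?_⟩
  have h4 : R ≤ k := (Nat.le_ceil R).trans (by exact_mod_cast hk2)
  linarith [hR x hx]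

end VC

theorem vconv (_h1 : S_WL) (_h2 : S_MOLI) (h3 : S_APP) (h4 : S_POT0) : S_VCONV := by
  intro A hA b e hb he hC hmol
  rw [tendstoLocallyUniformlyOn_iff_forall_isCompact VC.isOpen_Om]
  intro K hKO hK
  rw [Metric.tendstoUniformlyOn_iff]
  intro ε hε
  obtain ⟨C, hC0, hctl⟩ := hC
  obtain ⟨δ, hδ, hpot⟩ := h4 C hC0 (min (1 / 4) (ε / 100)) (by positivity)
  have happ := hb.eventually (h3 A hA (ε / 100) (by positivity) K hK hKO)
  have h2 : Tendsto (fun k : ℕ => 1 / ((k : ℝ) + 1)) atTop (𝓝 0) :=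
    tendsto_one_div_add_atTop_nhds_zero_nat
  have h5 : ∀ᶠ k : ℕ in atTop, 1 / ((k : ℝ) + 1) < ε / 100 :=
    h2.eventually (gt_mem_nhds (by positivity))
  filter_upwards [happ, hctl δ hδ, VC.exhaust hK hKO, h5] with k k1 k2 k3 k4 x hx
  have a1 := k1 x hx
  have a2 := hmol k x (k3 x hx).1 (k3 x hx).2
  have a3 := hpot (e k) (gg A (b k)) (he k).1 (he k).2 k2 x (hKO hx)
  have hp1 : |pot (e k) (gg A (b k)) x| ≤ 1 / 4 := a3.trans (min_le_left _ _)
  have hp2 : |pot (e k) (gg A (b k)) x| ≤ ε / 100 := a3.trans (min_le_right _ _)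
  set P := pot (e k) (gg A (b k)) x with hP
  set w := W A (b k) x with hw
  set m := mol (e k) (gg A (b k)) x with hm
  set Bx := B A (b k) x with hBx
  set G := gg A (b k) x with hG
  have hE : 0 < Real.exp (4 * w) := Real.exp_pos _
  have e1 : Real.exp (-(4 * (w + P))) = (Real.exp (4 * w))⁻¹ * Real.exp (-(4 * P)) := by
    rw [← Real.exp_neg, ← Real.exp_add]
    congr 1
    ring
  have hp3 : |Real.exp (-(4 * P)) - 1| ≤ 8 * (ε / 100) := by
    have h6 : |(-(4 * P))| = 4 * |P| := by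
      rw [abs_neg, abs_mul, abs_of_pos (by norm_num : (0 : ℝ) < 4)]
    have := Real.abs_exp_sub_one_le (x := -(4 * P)) (by rw [h6]; linarith)
    rw [h6] at this
    linarith
  have hp4 : Real.exp (-(4 * P)) ≤ 3 := by
    have h6 : |(-(4 * P))| = 4 * |P| := by
      rw [abs_neg, abs_mul, abs_of_pos (by norm_num : (0 : ℝ) < 4)]
    have := Real.abs_exp_sub_one_le (x := -(4 * P)) (by rw [h6]; linarith)
    rw [h6] at this
    have h7 := (abs_le.1 this).2
    linarith
  have hq : |(Bx + m) * (Real.exp (4 * w))⁻¹ - 6| ≤ 12 * (ε / 100) := by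
    have h6 : |Bx + m - 6 * Real.exp (4 * w)| ≤ 2 * (ε / 100) * (6 * Real.exp (4 * w)) := by
      have h7 : Bx + m - 6 * Real.exp (4 * w) = (Bx + G - 6 * Real.exp (4 * w)) + (m - G) := by ring
      rw [h7]
      refine (abs_add_le _ _).trans ?_
      have h8 : 1 / ((k : ℝ) + 1) * (6 * Real.exp (4 * w)) ≤ ε / 100 * (6 * Real.exp (4 * w)) :=
        mul_le_mul_of_nonneg_right k4.le (by positivity)
      linarith
    have h9 : (Bx + m) * (Real.exp (4 * w))⁻¹ - 6 =
        (Bx + m - 6 * Real.exp (4 * w)) * (Real.exp (4 * w))⁻¹ := by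
      field_simp
    rw [h9, abs_mul, abs_of_pos (inv_pos.2 hE)]
    calc |Bx + m - 6 * Real.exp (4 * w)| * (Real.exp (4 * w))⁻¹
        ≤ 2 * (ε / 100) * (6 * Real.exp (4 * w)) * (Real.exp (4 * w))⁻¹ :=
          mul_le_mul_of_nonneg_right h6 (by positivity)
      _ = 12 * (ε / 100) := by
          field_simp
          ring
  rw [dist_comm, Real.dist_eq, e1]
  have e2 : (Bx + m) * ((Real.exp (4 * w))⁻¹ * Real.exp (-(4 * P))) - 6 =
      ((Bx + m) * (Real.exp (4 * w))⁻¹ - 6) * Real.exp (-(4 * P)) + 6 * (Real.exp (-(4 * P)) - 1) := by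
    ring
  rw [e2]
  have h10 : |((Bx + m) * (Real.exp (4 * w))⁻¹ - 6) * Real.exp (-(4 * P))| ≤ 12 * (ε / 100) * 3 := by
    rw [abs_mul, abs_of_pos (Real.exp_pos _)]
    exact mul_le_mul hq hp4 (Real.exp_pos _).le (by positivity)
  have h11 : |6 * (Real.exp (-(4 * P)) - 1)| ≤ 6 * (8 * (ε / 100)) := by
    rw [abs_mul, abs_of_pos (by norm_num : (0 : ℝ) < 6)]
    exact mul_le_mul_of_nonneg_left hp3 (by norm_num)
  have h12 := abs_add_le (((Bx + m) * (Real.exp (4 * w))⁻¹ - 6) * Real.exp (-(4 * P)))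
    (6 * (Real.exp (-(4 * P)) - 1))
  linarith

end Pool.Agent.Q82.QC
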