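import Pool.Agent.Q82.QC.CTL

/-!
# Project QC, job VOL (helper299): bounded volume
-/

set_option autoImplicit false

open MeasureTheory Filter Topology Real InnerProductSpace Laplacian

namespace Pool.Agent.Q82.QC

namespace CT

theorem ep_pos {A : Finset E} (hA : GoodA A) (β : ℝ) {a : E} (ha : a ∈ A) : 0 < ep A β a := by
  have haO : a ∈ Om := by
    have h := hA a ha
    constructor <;> rw [h] <;> norm_num
  have h8 := k0_pp a haO
  have hH : 0 < HH A a := by
    unfold HH
    refine Finset.prod_pos fun b hb => ?_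
    have hne : a - b ≠ 0 := sub_ne_zero.2 (Finset.ne_of_mem_erase hb).symm
    have h1 : 0 < ‖a - b‖ := norm_pos_iff.2 hne
    have h2 : 0 < ‖a - pp‖ := by linarith
    positivity
  unfold ep
  positivity

theorem B_int (h5 : S_MASS) {A : Finset E} (hA : GoodA A) (β : ℝ) :
    Integrable (B A β) ∧ ∫ x, B A β x = A.card * (16 * π ^ 2) := by
  have h1 : ∀ a ∈ A, Integrable fun x : E => bd (ep A β a) (x - a) := fun a ha =>
    (h5 _ (ep_pos hA β ha)).1.comp_sub_right a
  constructor
  · exact integrable_finsetSum _ h1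
  · unfold B
    rw [integral_finsetSum _ h1, Finset.sum_congr rfl fun a ha => ?_, Finset.sum_const, nsmul_eq_mul]
    rw [integral_sub_right_eq_self (fun x => bd (ep A β a) x) a, (h5 _ (ep_pos hA β ha)).2]

end CT

open CT in
theorem vol (h1 : S_WL) (h2 : S_WB) (h3 : S_TH) (h4 : S_RAT) (h5 : S_MASS) : S_VOL := by
  intro A hA
  obtain ⟨C, β0, hC, hβ0, hb⟩ := h2 A hA
  refine ⟨C + A.card * (16 * π ^ 2), ?_⟩
  have hlim := h3.2
  filter_upwards [eventually_ge_atTop β0, hlim.eventually (gt_mem_nhds one_pos),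
    h4 A hA (1 / 2) (by norm_num)] with β hβ hsm hrat
  have hβp : 0 < β := by linarith
  obtain ⟨hBi, hBv⟩ := B_int h5 hA β
  have hpt : ∀ x ∈ Om, Real.exp (4 * W A β x) ≤
      C * ((Real.exp (4 * β * phi x) + Real.exp (-β)) / ‖x - pp‖ ^ 7) + B A β x := by
    intro x hx
    have h8 := k0_pp x hx
    have hp : 0 < ‖x - pp‖ := by linarith
    have hBn := B_nonneg A β x
    have hg0 : 0 ≤ C * ((Real.exp (4 * β * phi x) + Real.exp (-β)) / ‖x - pp‖ ^ 7) := by positivity
    by_cases hfar : ∀ a ∈ A, 1 / β ≤ ‖x - a‖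
    · have b1 := (hb β hβ x hx hfar).1
      have b2 : C / ‖x - pp‖ ^ 8 * (Real.exp (4 * β * phi x) + Real.exp (-β)) ≤
          C * ((Real.exp (4 * β * phi x) + Real.exp (-β)) / ‖x - pp‖ ^ 7) := by
        have e1 : C / ‖x - pp‖ ^ 8 * (Real.exp (4 * β * phi x) + Real.exp (-β)) =
            C * ((Real.exp (4 * β * phi x) + Real.exp (-β)) / ‖x - pp‖ ^ 8) := by ring
        rw [e1]
        refine mul_le_mul_of_nonneg_left ?_ hC.le
        refine div_le_div_of_nonneg_left (by positivity) (by positivity) ?_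
        exact pow_le_pow_right₀ (by linarith) (by norm_num)
      linarith
    · push Not at hfar
      obtain ⟨a, ha, hax⟩ := hfar
      have h6 : ‖x - a‖ ≤ 2 / β := by
        have : 1 / β ≤ 2 / β := by
          rw [div_le_div_iff_of_pos_right hβp]
          norm_num
        linarith
      have h7 := (abs_le.1 (hrat a ha x h6)).1
      have hE : 0 < Real.exp (4 * W A β x) := Real.exp_pos _
      linarith
  have hgi : IntegrableOn (fun x : E => C * ((Real.exp (4 * β * phi x) + Real.exp (-β)) /
      ‖x - pp‖ ^ 7) + B A β x) Om := ((h3.1 β hβp.le).const_mul C).add hBi.integrableOn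
  have hmeas : AEStronglyMeasurable (fun x => Real.exp (4 * W A β x)) (volume.restrict Om) := by
    refine ContinuousOn.aestronglyMeasurable (fun x hx => ?_) isOpen_Om.measurableSet
    have hW := W_cont h1 hA β hx
    exact (Real.continuous_exp.continuousAt.comp (continuousAt_const.mul hW)).continuousWithinAt
  have hfi : IntegrableOn (fun x => Real.exp (4 * W A β x)) Om := by
    refine Integrable.mono' hgi hmeas ?_
    filter_upwards [ae_restrict_mem isOpen_Om.measurableSet] with x hx
    rw [Real.norm_of_nonneg (Real.exp_pos _).le]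
    exact hpt x hx
  refine ⟨hfi, ?_⟩
  calc ∫ x in Om, Real.exp (4 * W A β x)
      ≤ ∫ x in Om, (C * ((Real.exp (4 * β * phi x) + Real.exp (-β)) / ‖x - pp‖ ^ 7) + B A β x) :=
        setIntegral_mono_on hfi hgi isOpen_Om.measurableSet hpt
    _ = C * (∫ x in Om, (Real.exp (4 * β * phi x) + Real.exp (-β)) / ‖x - pp‖ ^ 7)
          + ∫ x in Om, B A β x := by
        rw [integral_add ((h3.1 β hβp.le).const_mul C) hBi.integrableOn, integral_const_mul]
    _ ≤ C * 1 + A.card * (16 * π ^ 2) := by
        refine add_le_add (mul_le_mul_of_nonneg_left hsm.le hC.le) ?_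
        rw [← hBv]
        exact setIntegral_le_integral hBi (Eventually.of_forall fun x => B_nonneg A β x)
    _ = _ := by rw [mul_one]

end Pool.Agent.Q82.QC
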